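import Mathlib

set_option autoImplicit false
open Classical Finset

namespace Pool.Agent.H620R3.NR

/-! ### powers of two -/

theorem lemL : ∀ (n : ℕ) (m : ℕ → ℕ), (∑ i ∈ range n, m i) ≤ n →
    ∑ i ∈ range n, m i * 2 ^ i = 2 ^ n - 1 → ∀ i, i < n → m i = 1 := by
  intro n
  induction n with
  | zero => intro m _ _ i hi; omega
  | succ n ih =>
    intro m h1 h2 
    rw [Finset.sum_range_succ'] at h1 h2
    have hp : 2 ^ (n + 1) = 2 * 2 ^ n := by ring
    have hpos : 0 < 2 ^ n := by positivity
    have e1 : ∑ k ∈ range n, m (k + 1) * 2 ^ (k + 1) = 2 * ∑ k ∈ range n, m (k + 1) * 2 ^ k := by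
      rw [Finset.mul_sum]; refine Finset.sum_congr rfl fun k _ => by ring
    rw [e1, hp] at h2
    obtain ⟨q, hq⟩ : ∃ q, m 0 = 2 * q + 1 := ⟨m 0 / 2, by omega⟩
    rcases Nat.eq_zero_or_pos n with hn | hn
    · subst hn
      intro i hi
      have : i = 0 := by omega
      subst this
      simp at h2
      omega
    · have key := ih (fun k => m (k + 1) + if k = 0 then q else 0) (by
        rw [Finset.sum_add_distrib, Finset.sum_ite_eq' (range n) 0]
        simp only [Finset.mem_range, hn, if_true]; omega) (by
        simp only [add_mul]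
        rw [Finset.sum_add_distrib]
        have : ∑ x ∈ range n, (if x = 0 then q else 0) * 2 ^ x = q := by
          rw [Finset.sum_eq_single 0]
          · simp
          · intro b _ hb; simp [hb]
          · intro h; simp at h; omega
        rw [this]; omega)
      have hs : ∑ k ∈ range n, (m (k + 1) + if k = 0 then q else 0) = n := by
        rw [Finset.sum_congr rfl (fun k hk => key k (Finset.mem_range.mp hk))]
        simp
      rw [Finset.sum_add_distrib, Finset.sum_ite_eq' (range n) 0] at hs
      simp only [Finset.mem_range, hn, if_true] at hs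
      have hq0 : q = 0 := by omega
      intro i hi
      rcases i with _ | i
      · omega
      · have := key i (by omega)
        simp only [hq0] at this
        simpa using this

/-! ### digits -/

open Polynomial in
theorem coeff_eq_digit (B : ℕ) (hB : 0 < B) : ∀ (j : ℕ) (p : ℕ[X]), (∀ i, p.coeff i < B) →
    p.coeff j = (p.eval B / B ^ j) % B := by
  intro j
  induction j with
  | zero =>
    intro p hp
    have h := congrArg (Polynomial.eval B) (Polynomial.divX_mul_X_add p)
    simp only [eval_add, eval_mul, eval_X, eval_C] at h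
    rw [← h, pow_zero, Nat.div_one, Nat.add_comm, Nat.add_mul_mod_self_right,
      Nat.mod_eq_of_lt (hp 0)]
  | succ j ih =>
    intro p hp
    have h := congrArg (Polynomial.eval B) (Polynomial.divX_mul_X_add p)
    simp only [eval_add, eval_mul, eval_X, eval_C] at h
    have h1 := ih p.divX (fun i => by rw [Polynomial.coeff_divX]; exact hp _)
    rw [Polynomial.coeff_divX] at h1
    rw [h1, pow_succ', ← Nat.div_div_eq_div_mul, ← h, mul_comm, Nat.mul_add_div hB,
      Nat.div_eq_of_lt (hp 0), add_zero]

open Polynomial in
theorem coeff_le_eval_one (p : ℕ[X]) (i : ℕ) : p.coeff i ≤ p.eval 1 := by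
  rw [Polynomial.eval_eq_sum_range]
  simp only [one_pow, mul_one]
  by_cases hi : i ≤ p.natDegree
  · exact Finset.single_le_sum (f := fun j => p.coeff j) (fun _ _ => Nat.zero_le _)
      (Finset.mem_range.mpr (Nat.lt_succ_of_le hi))
  · rw [Polynomial.coeff_eq_zero_of_natDegree_lt (by omega)]; exact Nat.zero_le _

end Pool.Agent.H620R3.NR
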