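import Mathlib

set_option autoImplicit false
open Classical Finset

namespace Pool.Agent.H620R3.NR

/-! ### chains, words and the `e`-`h` relation -/

section EH

variable {ι : Type*} [Fintype ι] [PartialOrder ι]

def IsCh (A : Finset ι) : Prop := ∀ u ∈ A, ∀ v ∈ A, u ≤ v ∨ v ≤ u

/-- sum over the chains in `S` with `j` elements -/
noncomputable def hS {R : Type*} [CommSemiring R] (y : ι → R) (S : Finset ι) (j : ℕ) : R :=
  ∑ A ∈ S.powerset.filter (fun A => IsCh A ∧ A.card = j), ∏ v ∈ A, y v

variable {R : Type*} [CommRing R] (y : ι → R)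

theorem hS_zero (S : Finset ι) : hS y S 0 = 1 := by
  unfold hS
  rw [Finset.sum_eq_single ∅]
  · simp
  · intro b hb hne
    simp only [Finset.mem_filter, Finset.card_eq_zero] at hb
    exact absurd hb.2.2 hne
  · intro h
    exfalso; apply h
    simp [IsCh]

theorem hS_succ (S : Finset ι) (j : ℕ) :
    hS y S (j + 1) = ∑ u ∈ S, y u * hS y (S.filter (fun a => a < u)) j := by
  unfold hS
  simp only [Finset.mul_sum]
  rw [Finset.sum_sigma']
  symm
  refine Finset.sum_bij (fun x _ => insert x.1 x.2) ?_ ?_ ?_ ?_
  · rintro ⟨u, A⟩ hx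
    simp only [Finset.mem_sigma, Finset.mem_filter, Finset.mem_powerset] at hx ⊢
    obtain ⟨hu, hA, hc, hcard⟩ := hx
    have huA : u ∉ A := fun h => by
      have := (Finset.mem_filter.mp (hA h)).2
      exact lt_irrefl _ this
    refine ⟨?_, ?_, ?_⟩
    · intro a ha
      rcases Finset.mem_insert.mp ha with rfl | ha
      · exact hu
      · exact (Finset.mem_filter.mp (hA ha)).1
    · intro a ha b hb
      rcases Finset.mem_insert.mp ha with ha1 | ha1 <;>
        rcases Finset.mem_insert.mp hb with hb1 | hb1
      · left; rw [ha1, hb1]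
      · right; rw [ha1]; exact (Finset.mem_filter.mp (hA hb1)).2.le
      · left; rw [hb1]; exact (Finset.mem_filter.mp (hA ha1)).2.le
      · exact hc a ha1 b hb1
    · rw [Finset.card_insert_of_notMem huA, hcard]
  · rintro ⟨u, A⟩ hx ⟨u', A'⟩ hx' heq
    simp only [Finset.mem_sigma, Finset.mem_filter, Finset.mem_powerset] at hx hx' heq
    have huA : ∀ a ∈ A, a < u := fun a h => (Finset.mem_filter.mp (hx.2.1 h)).2
    have huA' : ∀ a ∈ A', a < u' := fun a h => (Finset.mem_filter.mp (hx'.2.1 h)).2
    have h1 : u ≤ u' := by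
      have : u ∈ insert u' A' := by rw [← heq]; exact Finset.mem_insert_self _ _
      rcases Finset.mem_insert.mp this with h | h
      · exact h.le
      · exact (huA' _ h).le
    have h2 : u' ≤ u := by
      have : u' ∈ insert u A := by rw [heq]; exact Finset.mem_insert_self _ _
      rcases Finset.mem_insert.mp this with h | h
      · exact h.le
      · exact (huA _ h).le
    have h3 : u = u' := le_antisymm h1 h2
    subst h3
    have h4 : A = A' := by
      have e1 : (insert u A).erase u = A := Finset.erase_insert (fun h => lt_irrefl _ (huA _ h))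
      have e2 : (insert u A').erase u = A' := Finset.erase_insert (fun h => lt_irrefl _ (huA' _ h))
      rw [← e1, ← e2, heq]
    subst h4
    rfl
  · intro B hB
    simp only [Finset.mem_filter, Finset.mem_powerset] at hB
    obtain ⟨hBS, hc, hcard⟩ := hB
    have hne : B.Nonempty := by rw [← Finset.card_pos]; omega
    obtain ⟨m, hm⟩ := B.exists_maximal hne
    have hmB : m ∈ B := hm.1
    have hmax : ∀ b ∈ B, b ≤ m := fun b hb => by
      rcases hc b hb m hmB with h | h
      · exact h
      · exact hm.2 hb h
    refine ⟨⟨m, B.erase m⟩, ?_, Finset.insert_erase hmB⟩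
    simp only [Finset.mem_sigma, Finset.mem_filter, Finset.mem_powerset]
    refine ⟨hBS hmB, ?_, ?_, ?_⟩
    · intro a ha
      have hane := Finset.ne_of_mem_erase ha
      have haB := Finset.mem_of_mem_erase ha
      exact Finset.mem_filter.mpr ⟨hBS haB, lt_of_le_of_ne (hmax a haB) hane⟩
    · intro a ha b hb
      exact hc a (Finset.mem_of_mem_erase ha) b (Finset.mem_of_mem_erase hb)
    · rw [Finset.card_erase_of_mem hmB, hcard]; rfl
  · rintro ⟨u, A⟩ hx
    simp only [Finset.mem_sigma, Finset.mem_filter, Finset.mem_powerset] at hx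
    have huA : u ∉ A := fun h => by
      have := (Finset.mem_filter.mp (hx.2.1 h)).2
      exact lt_irrefl _ this
    rw [Finset.prod_insert huA]

end EH

section W

variable {ι : Type*} [Fintype ι] [PartialOrder ι]

/-- weighted words of length `k + 1` ending in `v` without descents -/
noncomputable def F {R : Type*} [CommSemiring R] (y : ι → R) : ℕ → ι → R
  | 0, v => y v
  | k + 1, v => y v * ∑ u ∈ univ.filter (fun u => ¬ v < u), F y k u

noncomputable def E {R : Type*} [CommSemiring R] (y : ι → R) : ℕ → R
  | 0 => 1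
  | k + 1 => ∑ v, F y k v

theorem map_F {R S : Type*} [CommSemiring R] [CommSemiring S] (φ : R →+* S) (y : ι → R) :
    ∀ (k : ℕ) (v : ι), φ (F y k v) = F (fun i => φ (y i)) k v := by
  intro k
  induction k with
  | zero => intro v; rfl
  | succ k ih =>
    intro v
    simp only [F, map_mul, map_sum, ih]

theorem map_E {R S : Type*} [CommSemiring R] [CommSemiring S] (φ : R →+* S) (y : ι → R)
    (k : ℕ) : φ (E y k) = E (fun i => φ (y i)) k := by
  cases k with
  | zero => simp [E]
  | succ k => simp only [E, map_sum, map_F]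

variable {R : Type*} [CommRing R] (y : ι → R)

noncomputable def Dd (j : ℕ) (u : ι) : R := hS y (univ.filter (fun a => a < u)) j

theorem h_succ (j : ℕ) : hS y univ (j + 1) = ∑ u, y u * Dd y j u := hS_succ y univ j

theorem Dd_succ (j : ℕ) (w : ι) :
    Dd y (j + 1) w = ∑ u ∈ univ.filter (fun u => u < w), y u * Dd y j u := by
  unfold Dd
  rw [hS_succ]
  refine Finset.sum_congr rfl fun u hu => ?_
  congr 2
  ext a
  simp only [Finset.mem_filter, Finset.mem_univ, true_and] at hu ⊢
  exact ⟨fun h => h.2, fun h => ⟨h.trans hu, h⟩⟩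

noncomputable def G : ℕ → ℕ → R
  | 0, j => hS y univ j
  | i + 1, j => ∑ u, F y i u * (hS y univ j - Dd y j u)

theorem G_rel (i j : ℕ) : E y (i + 1) * hS y univ j = G y (i + 1) j + G y i (j + 1) := by
  have h0 : E y (i + 1) * hS y univ j = G y (i + 1) j + ∑ u, F y i u * Dd y j u := by
    simp only [E, G, mul_sub, Finset.sum_sub_distrib, Finset.sum_mul]
    ring
  rw [h0]
  congr 1
  cases i with
  | zero => simp only [F, G]; rw [h_succ]
  | succ i =>
    simp only [F, G]
    have hsub : ∀ w : ι, hS y univ (j + 1) - Dd y (j + 1) w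
        = ∑ u ∈ univ.filter (fun u => ¬ u < w), y u * Dd y j u := by
      intro w
      rw [h_succ, Dd_succ, ← Finset.sum_filter_add_sum_filter_not univ (fun u => u < w)]
      ring
    simp only [hsub, Finset.mul_sum, Finset.sum_mul]
    simp only [Finset.sum_filter]
    rw [Finset.sum_comm]
    refine Finset.sum_congr rfl fun u _ => Finset.sum_congr rfl fun w _ => ?_
    split_ifs <;> ring

theorem G_zero (i : ℕ) : G y (i + 1) 0 = 0 := by
  simp [G, Dd, hS_zero]

theorem partial_sum (m : ℕ) : ∀ j, ∑ i ∈ range (m + 1), (-1) ^ i * E y i * hS y univ (m + j - i)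
    = (-1) ^ m * G y m j := by
  induction m with
  | zero => intro j; simp [E, G]
  | succ m ih =>
    intro j
    rw [Finset.sum_range_succ]
    have h1 : ∑ i ∈ range (m + 1), (-1) ^ i * E y i * hS y univ (m + 1 + j - i)
        = ∑ i ∈ range (m + 1), (-1) ^ i * E y i * hS y univ (m + (j + 1) - i) := by
      refine Finset.sum_congr rfl fun i _ => ?_
      congr 2; omega
    rw [h1, ih (j + 1)]
    have h2 : m + 1 + j - (m + 1) = j := by omega
    rw [h2, mul_assoc, G_rel y m j]
    ring

theorem eh_rel (k : ℕ) :
    ∑ i ∈ range (k + 2), (-1) ^ i * E y i * hS y univ (k + 1 - i) = 0 := by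
  have := partial_sum y (k + 1) 0
  rw [G_zero, mul_zero] at this
  exact this

end W

end Pool.Agent.H620R3.NR
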