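import Mathlib

set_option autoImplicit false
open Classical Finset Matrix

namespace Pool.Agent.H620R3.NR

/-! ### the determinant identity -/

variable {R : Type*} [CommRing R]

def hh (h : ℕ → R) (i j : ℕ) : R := if i + j ≤ 9 then h (9 - (i + j)) else 0
def gg (e : ℕ → R) (i j : ℕ) : R := if 9 ≤ i + j then (-1) ^ (i + j - 9) * e (i + j - 9) else 0

theorem hh_gg_aux (h e : ℕ → R) (h0 : h 0 = 1) (e0 : e 0 = 1)
    (rel : ∀ k, ∑ i ∈ range (k + 2), (-1) ^ i * e i * h (k + 1 - i) = 0)
    (a b : ℕ) (ha : a < 10) (hb : b < 10) :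
    ∑ j ∈ range 10, hh h a j * gg e j b = if a = b then 1 else 0 := by
  rcases lt_or_ge b a with hab | hab
  · rw [if_neg (by omega)]
    refine Finset.sum_eq_zero fun j _ => ?_
    unfold hh gg
    split_ifs with h1 h2
    · omega
    · simp
    · simp
    · simp
  · obtain ⟨d, rfl⟩ := Nat.exists_eq_add_of_le hab
    have key : ∑ s ∈ range (d + 1), (-1) ^ s * e s * h (d - s) =
        ∑ j ∈ range 10, hh h a j * gg e j (a + d) := by
      refine Finset.sum_of_injOn (fun s => s + (9 - (a + d))) ?_ ?_ ?_ ?_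
      · intro x _ y _ hxy; simpa using hxy
      · intro x hx
        simp only [Finset.coe_range, Set.mem_Iio] at hx ⊢
        omega
      · intro j hj hj2
        unfold hh gg
        split_ifs with h1 h2
        · exfalso; apply hj2
          refine ⟨j + (a + d) - 9, ?_, ?_⟩
          · simp only [Finset.coe_range, Set.mem_Iio]; omega
          · simp only; omega
        · simp
        · simp
        · simp
      · intro s hs
        simp only [Finset.mem_range] at hs
        unfold hh gg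
        rw [if_pos (by omega), if_pos (by omega)]
        have e1 : 9 - (a + (s + (9 - (a + d)))) = d - s := by omega
        have e2 : s + (9 - (a + d)) + (a + d) - 9 = s := by omega
        rw [e1, e2]; ring
    rw [← key]
    rcases Nat.eq_zero_or_pos d with hd | hd
    · subst hd; simp [h0, e0]
    · rw [if_neg (by omega)]
      obtain ⟨k, rfl⟩ : ∃ k, d = k + 1 := ⟨d - 1, by omega⟩
      exact rel k

theorem hh_gg (h e : ℕ → R) (h0 : h 0 = 1) (e0 : e 0 = 1)
    (rel : ∀ k, ∑ i ∈ range (k + 2), (-1) ^ i * e i * h (k + 1 - i) = 0) :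
    (Matrix.of fun i j : Fin 10 => hh h i j) * (Matrix.of fun i j : Fin 10 => gg e i j) = 1 := by
  ext i k
  rw [Matrix.mul_apply]
  simp only [Matrix.of_apply]
  rw [Fin.sum_univ_eq_sum_range (fun j => hh h i j * gg e j k) 10,
    hh_gg_aux h e h0 e0 rel i k i.2 k.2, Matrix.one_apply]
  simp only [Fin.ext_iff]

theorem sign_rev : Equiv.Perm.sign (Fin.revPerm : Equiv.Perm (Fin 10)) = -1 := by
  decide +kernel

theorem det_hh (h : ℕ → R) (h0 : h 0 = 1) :
    (Matrix.of fun i j : Fin 10 => hh h i j).det = -1 := by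
  have h1 : ((Matrix.of fun i j : Fin 10 => hh h i j).submatrix id
      (Fin.revPerm : Equiv.Perm (Fin 10))).det = 1 := by
    rw [Matrix.det_of_isUpperTriangular]
    · refine Finset.prod_eq_one fun i _ => ?_
      simp only [Matrix.submatrix_apply, Matrix.of_apply, id, Fin.revPerm_apply, hh, Fin.val_rev]
      rw [if_pos (by omega)]
      have : 9 - ((i : ℕ) + (10 - ((i : ℕ) + 1))) = 0 := by omega
      rw [this, h0]
    · intro i j hij
      simp only [Matrix.submatrix_apply, Matrix.of_apply, id, Fin.revPerm_apply, hh, Fin.val_rev]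
      rw [if_neg]
      have : (j : ℕ) < i := hij
      omega
  rw [Matrix.det_permute', sign_rev] at h1
  have : (((-1 : ℤˣ) : ℤ) : R) = -1 := by simp
  rw [this] at h1
  linear_combination -h1

theorem det8 (h e : ℕ → R) (h0 : h 0 = 1) (e0 : e 0 = 1)
    (rel : ∀ k, ∑ i ∈ range (k + 2), (-1) ^ i * e i * h (k + 1 - i) = 0) :
    (Matrix.of fun i j : Fin 8 => hh h i j).det = e 8 * e 8 - e 9 * e 7 := by
  obtain ⟨ε, v1, v2⟩ : ∃ ε : Fin 8 ⊕ Fin 2 ≃ Fin 10, (∀ i, ((ε (Sum.inl i) : Fin 10) : ℕ) = i) ∧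
      (∀ i, ((ε (Sum.inr i) : Fin 10) : ℕ) = 8 + i) :=
    ⟨finSumFinEquiv, fun _ => rfl, fun _ => rfl⟩
  set N := (Matrix.of fun i j : Fin 10 => hh h i j).submatrix ε ε with hN
  set K := (Matrix.of fun i j : Fin 10 => gg e i j).submatrix ε ε with hK
  have hNK : N * K = 1 := by
    rw [hN, hK, Matrix.submatrix_mul_equiv, hh_gg h e h0 e0 rel, Matrix.submatrix_one_equiv]
  have hNb := Matrix.fromBlocks_toBlocks N
  have hKb := Matrix.fromBlocks_toBlocks K
  rw [← hNb, ← hKb, Matrix.fromBlocks_multiply, ← Matrix.fromBlocks_one,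
    Matrix.fromBlocks_inj] at hNK
  obtain ⟨_, h12, _, h22⟩ := hNK
  have hprod : N * Matrix.fromBlocks 1 K.toBlocks₁₂ 0 K.toBlocks₂₂
      = Matrix.fromBlocks N.toBlocks₁₁ 0 N.toBlocks₂₁ 1 := by
    conv_lhs => rw [← hNb]
    rw [Matrix.fromBlocks_multiply]
    simp only [Matrix.mul_one, Matrix.mul_zero, add_zero, h12, h22]
  have hd := congrArg Matrix.det hprod
  rw [Matrix.det_mul, Matrix.det_fromBlocks_zero₂₁, Matrix.det_fromBlocks_zero₁₂] at hd
  simp only [Matrix.det_one, one_mul, mul_one] at hd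
  have hdN : N.det = -1 := by rw [hN, Matrix.det_submatrix_equiv_self, det_hh h h0]
  rw [hdN] at hd
  have hM : (Matrix.of fun i j : Fin 8 => hh h i j) = N.toBlocks₁₁ := by
    ext i j
    simp only [hN, Matrix.toBlocks₁₁, Matrix.of_apply, Matrix.submatrix_apply, v1]
  rw [hM, ← hd, Matrix.det_fin_two]
  simp only [hK, Matrix.toBlocks₂₂, Matrix.of_apply, Matrix.submatrix_apply, v2, gg]
  norm_num
  ring

end Pool.Agent.H620R3.NR
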