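import Pool.Agent.H620R3.NR.N

set_option autoImplicit false
open Classical Finset Polynomial

namespace Pool.Agent.H620R3.NR

/-! ### enumeration of the maximal chains -/

def ext1 (l : List ℕ) : List (List ℕ) :=
  match l with
  | [] => []
  | a :: l' => [a :: a :: l', (a + 1) :: a :: l']

def XR : ℕ → List (List ℕ)
  | 0 => [[0]]
  | r + 1 => (XR r).flatMap ext1

def lst (x : ℕ → ℕ) : ℕ → List ℕ
  | 0 => [x 0]
  | r + 1 => x (r + 1) :: lst x r

theorem lst_cons (x : ℕ → ℕ) (n : ℕ) : ∃ l, lst x n = x n :: l := by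
  cases n with
  | zero => exact ⟨[], rfl⟩
  | succ n => exact ⟨_, rfl⟩

theorem lst_mem (x : ℕ → ℕ) (h0 : x 0 = 0) : ∀ n, (∀ r, r < n → x (r + 1) = x r ∨ x (r + 1) = x r + 1) →
    lst x n ∈ XR n := by
  intro n
  induction n with
  | zero => intro _; simp [lst, XR, h0]
  | succ n ih =>
    intro h
    have h1 := ih (fun r hr => h r (by omega))
    simp only [XR, lst, List.mem_flatMap]
    refine ⟨_, h1, ?_⟩
    obtain ⟨l, hl⟩ := lst_cons x n
    rw [hl]
    rcases h n (by omega) with h2 | h2
    · rw [h2]; simp [ext1]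
    · rw [h2]; simp [ext1]

theorem lst_getD (x : ℕ → ℕ) (d : ℕ) : ∀ n r, r ≤ n → (lst x n).getD (n - r) d = x r := by
  intro n
  induction n with
  | zero => intro r hr; have : r = 0 := by omega
            subst this; rfl
  | succ n ih =>
    intro r hr
    rcases Nat.lt_or_ge n r with h | h
    · have : r = n + 1 := by omega
      subst this
      simp [lst]
    · have h1 : n + 1 - r = (n - r) + 1 := by omega
      rw [h1]
      show (lst x n).getD (n - r) d = x r
      exact ih r h

def inX (l : List ℕ) (a : ℕ) : Bool := Nat.beq (l.getD (8 - (a / 5 + a % 5)) 9) (a / 5)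

def Lof (l : List ℕ) : List ℕ := (List.range 25).filter (fun a => !(inX l a))

def XL : List (List ℕ) := (XR 8).filter (fun l => Nat.beq (l.getD 0 9) 4)

def LL : List (List ℕ) := XL.map Lof

noncomputable def Cof (L : List ℕ) : Finset Gr := univ.filter (fun v => code v ∉ L)

def rk (v : Gr) : ℕ := (v 0 : ℕ) + (v 1 : ℕ)

theorem rk_lt (v : Gr) : rk v < 9 := by
  have h0 := (v 0).2
  have h1 := (v 1).2
  unfold rk; omega

theorem rk_inj {C : Finset Gr} (hC : IsCh C) {u v : Gr} (hu : u ∈ C) (hv : v ∈ C)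
    (h : rk u = rk v) : u = v := by
  unfold rk at h
  rcases hC u hu v hv with h1 | h1
  · rw [le_iff] at h1
    funext i
    fin_cases i
    · apply Fin.ext; show (u 0 : ℕ) = v 0; omega
    · apply Fin.ext; show (u 1 : ℕ) = v 1; omega
  · rw [le_iff] at h1
    funext i
    fin_cases i
    · apply Fin.ext; show (u 0 : ℕ) = v 0; omega
    · apply Fin.ext; show (u 1 : ℕ) = v 1; omega

theorem height (C : Finset Gr) (hC : IsCh C) : C.card ≤ 9 := by
  have h1 : (C.image rk).card = C.card :=
    Finset.card_image_of_injOn (fun u hu v hv h => rk_inj hC hu hv h)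
  have h2 : C.image rk ⊆ range 9 := by
    intro r hr
    obtain ⟨v, _, rfl⟩ := Finset.mem_image.mp hr
    exact Finset.mem_range.mpr (rk_lt v)
  have h3 := Finset.card_le_card h2
  rw [Finset.card_range] at h3
  omega

theorem chain_mem (C : Finset Gr) (hC : IsCh C) (hc : C.card = 9) :
    ∃ L ∈ LL, C = Cof L := by
  have h1 : (C.image rk).card = C.card :=
    Finset.card_image_of_injOn (fun u hu v hv h => rk_inj hC hu hv h)
  have h2 : C.image rk ⊆ range 9 := by
    intro r hr
    obtain ⟨v, _, rfl⟩ := Finset.mem_image.mp hr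
    exact Finset.mem_range.mpr (rk_lt v)
  have h3 : C.image rk = range 9 := Finset.eq_of_subset_of_card_le h2 (by rw [h1, hc]; simp)
  have h4 : ∀ r, r < 9 → ∃ v, v ∈ C ∧ rk v = r := by
    intro r hr
    have : r ∈ C.image rk := by rw [h3]; exact Finset.mem_range.mpr hr
    obtain ⟨v, hv, hvr⟩ := Finset.mem_image.mp this
    exact ⟨v, hv, hvr⟩
  choose! w hw using h4
  let x : ℕ → ℕ := fun r => (w r 0 : ℕ)
  have hx0 : x 0 = 0 := by
    have := (hw 0 (by norm_num)).2
    unfold rk at this
    show (w 0 0 : ℕ) = 0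
    omega
  have hstep : ∀ r, r < 8 → x (r + 1) = x r ∨ x (r + 1) = x r + 1 := by
    intro r hr
    have a1 := hw r (by omega)
    have a2 := hw (r + 1) (by omega)
    have b1 := a1.2
    have b2 := a2.2
    unfold rk at b1 b2
    show (w (r + 1) 0 : ℕ) = (w r 0 : ℕ) ∨ (w (r + 1) 0 : ℕ) = (w r 0 : ℕ) + 1
    rcases hC _ a1.1 _ a2.1 with h | h
    · rw [le_iff] at h; omega
    · rw [le_iff] at h; omega
  have hx8 : x 8 = 4 := by
    have := (hw 8 (by norm_num)).2
    unfold rk at this
    have h0 := (w 8 0).2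
    have h1 := (w 8 1).2
    show (w 8 0 : ℕ) = 4
    omega
  have hmem := lst_mem x hx0 8 hstep
  refine ⟨Lof (lst x 8), ?_, ?_⟩
  · unfold LL XL
    refine List.mem_map.mpr ⟨_, List.mem_filter.mpr ⟨hmem, ?_⟩, rfl⟩
    have h5 := lst_getD x 9 8 8 (le_refl _)
    simp only [Nat.sub_self] at h5
    rw [h5, hx8]; rfl
  · ext v
    unfold Cof Lof
    simp only [Finset.mem_filter, Finset.mem_univ, true_and, List.mem_filter, List.mem_range,
      Bool.not_eq_true', not_and, Bool.not_eq_false]
    have hv0 := (v 0).2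
    have hv1 := (v 1).2
    have e0 : code v / 5 = (v 0 : ℕ) := by unfold code; omega
    have e1 : code v % 5 = (v 1 : ℕ) := by unfold code; omega
    have e2 : inX (lst x 8) (code v) = true ↔ x (rk v) = (v 0 : ℕ) := by
      unfold inX
      rw [e0, e1, Nat.beq_eq]
      have h5 := lst_getD x 9 8 (rk v) (by have := rk_lt v; omega)
      unfold rk at h5 ⊢
      rw [h5]
    rw [e2]
    have a1 := hw (rk v) (rk_lt v)
    constructor
    · intro hv _
      have h6 : v = w (rk v) := rk_inj hC hv a1.1 a1.2.symm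
      show (w (rk v) 0 : ℕ) = v 0
      rw [← h6]
    · intro h
      have h7 := h (code_lt v)
      have h8 : (w (rk v) 0 : ℕ) = v 0 := h7
      have h9 := a1.2
      have h10 : w (rk v) = v := by
        have : (w (rk v) 1 : ℕ) = v 1 := by
          have h11 : rk (w (rk v)) = (w (rk v) 0 : ℕ) + (w (rk v) 1 : ℕ) := rfl
          have h12 : rk v = (v 0 : ℕ) + (v 1 : ℕ) := rfl
          omega
        funext i
        fin_cases i
        · exact Fin.ext h8
        · exact Fin.ext this
      rw [← h10]; exact a1.1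

def cmp (a b : ℕ) : Bool :=
  (Nat.ble (a / 5) (b / 5) && Nat.ble (a % 5) (b % 5)) ||
  (Nat.ble (b / 5) (a / 5) && Nat.ble (b % 5) (a % 5))

def goodL (L : List ℕ) : Bool :=
  Nat.beq L.length 16 && (List.range 25).all (fun a => (List.range 25).all (fun b =>
    L.elem a || L.elem b || cmp a b))

theorem LL_good : LL.all goodL = true := by decide +kernel

theorem LL_nodup : LL.Nodup := by decide +kernel

theorem LL_len : LL.length = 70 := by decide +kernel

theorem LL_mem_nodup (L : List ℕ) (hL : L ∈ LL) : L.Nodup := by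
  unfold LL at hL
  obtain ⟨l, _, rfl⟩ := List.mem_map.mp hL
  exact List.Nodup.filter _ List.nodup_range

theorem LL_mem_lt (L : List ℕ) (hL : L ∈ LL) : ∀ a ∈ L, a < 25 := by
  unfold LL at hL
  obtain ⟨l, _, rfl⟩ := List.mem_map.mp hL
  intro a ha
  exact List.mem_range.mp (List.mem_filter.mp ha).1

theorem LL_mem_len (L : List ℕ) (hL : L ∈ LL) : L.length = 16 := by
  have h := List.all_eq_true.mp LL_good L hL
  unfold goodL at h
  rw [Bool.and_eq_true, Nat.beq_eq] at h
  exact h.1

theorem Cof_chain (L : List ℕ) (hL : L ∈ LL) : IsCh (Cof L) := by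
  have h := List.all_eq_true.mp LL_good L hL
  unfold goodL at h
  rw [Bool.and_eq_true] at h
  have h2 := h.2
  intro u hu v hv
  unfold Cof at hu hv
  simp only [Finset.mem_filter, Finset.mem_univ, true_and] at hu hv
  have h3 := List.all_eq_true.mp h2 (code u) (List.mem_range.mpr (code_lt u))
  have h4 := List.all_eq_true.mp h3 (code v) (List.mem_range.mpr (code_lt v))
  have hu0 := (u 0).2
  have hu1 := (u 1).2
  have hv0 := (v 0).2
  have hv1 := (v 1).2
  have e0 : code v / 5 = (v 0 : ℕ) := by unfold code; omega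
  have e1 : code v % 5 = (v 1 : ℕ) := by unfold code; omega
  have e2 : code u / 5 = (u 0 : ℕ) := by unfold code; omega
  have e3 : code u % 5 = (u 1 : ℕ) := by unfold code; omega
  rw [Bool.or_eq_true, Bool.or_eq_true, List.elem_iff, List.elem_iff] at h4
  rcases h4 with (h4 | h4) | h4
  · exact absurd h4 hu
  · exact absurd h4 hv
  · unfold cmp at h4
    rw [e0, e1, e2, e3, Bool.or_eq_true, Bool.and_eq_true, Bool.and_eq_true] at h4
    simp only [Nat.ble_eq] at h4
    rw [le_iff, le_iff]
    exact h4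

theorem Cof_compl (L : List ℕ) (hn : L.Nodup) (hb : ∀ a ∈ L, a < 25) :
    (Cof L).card + L.length = 25 := by
  have h1 : (univ.filter (fun v : Gr => code v ∈ L)).card = L.length := by
    rw [Finset.card_filter, sum_list L hn hb (fun v => if code v ∈ L then 1 else 0)
      (fun v hv => if_neg hv)]
    rw [List.map_congr_left (g := fun _ => 1) (fun x hx => by
      rw [code_dec x (hb x hx), if_pos hx])]
    simp
  have h2 := Finset.card_filter_add_card_filter_not (s := (univ : Finset Gr))
    (fun v : Gr => code v ∈ L)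
  rw [h1] at h2
  have h3 : (univ : Finset Gr).card = 25 := by simp [Gr]
  rw [h3] at h2
  unfold Cof
  omega

theorem Cof_inj (L L' : List ℕ) (hL : L ∈ LL) (hL' : L' ∈ LL) (h : Cof L = Cof L') : L = L' := by
  have key : ∀ a, a < 25 → (a ∈ L ↔ a ∈ L') := by
    intro a ha
    have h1 : dec a ∈ Cof L ↔ dec a ∈ Cof L' := by rw [h]
    unfold Cof at h1
    simp only [Finset.mem_filter, Finset.mem_univ, true_and, code_dec a ha] at h1
    exact not_iff_not.mp h1
  unfold LL at hL hL'
  obtain ⟨l, _, rfl⟩ := List.mem_map.mp hL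
  obtain ⟨l', _, rfl⟩ := List.mem_map.mp hL'
  unfold Lof at key ⊢
  refine List.filter_congr fun a ha => ?_
  have h2 := key a (List.mem_range.mp ha)
  rw [List.mem_filter, List.mem_filter] at h2
  have h3 : (!(inX l a)) = true ↔ (!(inX l' a)) = true :=
    ⟨fun h4 => (h2.mp ⟨ha, h4⟩).2, fun h4 => (h2.mpr ⟨ha, h4⟩).2⟩
  exact Bool.eq_iff_iff.mpr h3

theorem chains_sum {M : Type*} [AddCommMonoid M] (f : Finset Gr → M) :
    ∑ C ∈ (univ : Finset (Finset Gr)).filter (fun C => IsCh C ∧ C.card = 9), f C =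
      (LL.map (fun L => f (Cof L))).sum := by
  have h1 : (univ : Finset (Finset Gr)).filter (fun C => IsCh C ∧ C.card = 9) =
      (LL.map Cof).toFinset := by
    ext C
    simp only [Finset.mem_filter, Finset.mem_univ, true_and, List.mem_toFinset, List.mem_map]
    constructor
    · rintro ⟨h1, h2⟩
      obtain ⟨L, hL, rfl⟩ := chain_mem C h1 h2
      exact ⟨L, hL, rfl⟩
    · rintro ⟨L, hL, rfl⟩
      refine ⟨Cof_chain L hL, ?_⟩
      have := Cof_compl L (LL_mem_nodup L hL) (LL_mem_lt L hL)
      rw [LL_mem_len L hL] at this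
      omega
  have h2 : (LL.map Cof).Nodup := by
    refine List.Nodup.map_on ?_ LL_nodup
    intro L hL L' hL' h
    exact Cof_inj L L' hL hL' h
  rw [h1, List.sum_toFinset f h2, List.map_map]
  rfl

end Pool.Agent.H620R3.NR
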