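import Pool.Agent.H620R3.NR.Enum

set_option autoImplicit false
open Classical Finset Polynomial

namespace Pool.Agent.H620R3.NR

theorem okSum_modEq (M : ℕ) (f g : ℕ → ℕ) (h : ∀ a, f a ≡ g a [MOD M]) (v : ℕ) :
    ∀ L : List ℕ, okSum f v L ≡ okSum g v L [MOD M] := by
  intro L
  induction L with
  | nil => exact Nat.ModEq.refl _
  | cons a l ih =>
    have e1 : ∀ f : ℕ → ℕ, okSum f v (a :: l) =
      cond (ltc v a) (okSum f v l) (Nat.add (f a) (okSum f v l)) := fun _ => rfl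
    rw [e1, e1]
    cases ltc v a
    · exact Nat.ModEq.add (h a) ih
    · exact ih

theorem Mk_eq : Mk = 2 ^ 4259840 - 1 := by
  unfold Mk
  rw [Nat.sub_eq, Nat.pow_eq]

theorem Fm_modEq (L : List ℕ) : ∀ (k v : ℕ), Fm L k v ≡ Fn L k v [MOD 2 ^ 4259840] := by
  intro k
  induction k with
  | zero => intro v; exact Nat.ModEq.refl _
  | succ k ih =>
    intro v
    have e1 : Fm L (k + 1) v = (okSum (Fm L k) v L <<< (65 * 2 ^ (idx L v))) &&& Mk := rfl
    have e2 : Fn L (k + 1) v = okSum (Fn L k) v L <<< (65 * 2 ^ (idx L v)) := rfl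
    rw [e1, e2, Mk_eq, Nat.and_two_pow_sub_one_eq_mod]
    refine (Nat.mod_modEq _ _).trans ?_
    rw [Nat.shiftLeft_eq, Nat.shiftLeft_eq]
    exact (okSum_modEq _ _ _ ih v L).mul_right _

theorem Em_modEq (L : List ℕ) (k : ℕ) : Em L k ≡ En L k [MOD 2 ^ 4259840] := by
  have : ∀ (l : List ℕ) (f g : ℕ → ℕ), (∀ a, f a ≡ g a [MOD 2 ^ 4259840]) →
      List.rec (motive := fun _ => ℕ) 0 (fun u _ ih => Nat.add (f u) ih) l ≡
      List.rec (motive := fun _ => ℕ) 0 (fun u _ ih => Nat.add (g u) ih) l [MOD 2 ^ 4259840] := by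
    intro l f g h
    induction l with
    | nil => exact Nat.ModEq.refl _
    | cons a l ih => exact Nat.ModEq.add (h a) ih
  exact this L _ _ (Fm_modEq L k)

theorem coef_eq (a b a' b' : ℕ) (ha : a' ≡ a [MOD 2 ^ 4259840]) (hb : b' ≡ b [MOD 2 ^ 4259840]) :
    coef a' b' = ((a * b) / 2 ^ (65 * 65535)) % 2 ^ 65 := by
  have e1 : coef a' b' = ((a' * b') >>> (65 * 65535)) % 2 ^ 65 := rfl
  have e2 : 2 ^ 4259840 = 2 ^ (65 * 65535) * 2 ^ 65 := by rw [← pow_add]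
  rw [e1, Nat.shiftRight_eq_div_pow]
  have h := ha.mul hb
  rw [e2] at h
  rw [← Nat.mod_mul_right_div_self, ← Nat.mod_mul_right_div_self, h]

theorem T_val (L : List ℕ) (hL : L ∈ LL) :
    (E (yZ L) 8 * E (yZ L) 8 - E (yZ L) 9 * E (yZ L) 7).coeff 65535 = (T1 L : ℤ) - (T2 L : ℤ) := by
  rw [T_eq L (LL_mem_nodup L hL) (LL_mem_lt L hL) (LL_mem_len L hL)]
  unfold T1 T2
  rw [coef_eq _ _ _ _ (Em_modEq L 7) (Em_modEq L 7), coef_eq _ _ _ _ (Em_modEq L 8) (Em_modEq L 6)]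

theorem step_C (L : List ℕ) (hL : L ∈ LL) :
    ∑ σ : Equiv.Perm (Fin 9), ((Equiv.Perm.sign σ : ℤˣ) : ℤ) *
      (((if σ 0 = 8 then (Tup (Cof L) (fun i => (σ i.succ : ℕ))).card else 0 : ℕ)) : ℤ) =
    (T1 L : ℤ) - (T2 L : ℤ) := by
  have hn := LL_mem_nodup L hL
  have hb := LL_mem_lt L hL
  have hlen := LL_mem_len L hL
  rw [← T_val L hL]
  have hj : ∀ j : Fin 16, (j : ℕ) < L.length := fun j => by rw [hlen]; exact j.2
  have hc : ∀ j : Fin 16, code (dec (L[(j : ℕ)]'(hj j))) = L[(j : ℕ)]'(hj j) :=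
    fun j => code_dec _ (hb _ (List.getElem_mem _))
  refine det_step (fun j : Fin 16 => dec (L[(j : ℕ)]'(hj j))) ?_ (Cof L) ?_ (yZ L) ?_ ?_
  · intro j j' h
    have h1 := congrArg code h
    simp only [hc] at h1
    have h2 := (List.Nodup.getElem_inj_iff hn).mp h1
    exact Fin.ext h2
  · intro v
    unfold Cof
    simp only [Finset.mem_filter, Finset.mem_univ, true_and]
    constructor
    · intro h j hjv
      apply h
      rw [← hjv, hc]
      exact List.getElem_mem _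
    · intro h hmem
      obtain ⟨n, hn', hn2⟩ := List.getElem_of_mem hmem
      refine h ⟨n, by rw [← hlen]; exact hn'⟩ ?_
      simp only
      rw [hn2, dec_code]
  · intro j
    unfold yZ
    rw [if_pos (by rw [hc]; exact List.getElem_mem _), hc, idx_get L hn]
  · intro v hv
    unfold Cof at hv
    simp only [Finset.mem_filter, Finset.mem_univ, true_and] at hv
    unfold yZ
    rw [if_neg hv]

theorem coeff_final (Pr : Finset (Gr → Fin 9))
    (hPr : ∀ c, c ∈ Pr ↔ ∀ u v, ¬ u ≤ v → ¬ v ≤ u → c u ≠ c v)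
    (α : Fin 9 →₀ ℕ) (hα0 : α 0 = 17) (hα : ∀ i : Fin 8, α i.succ + i = 9) :
    MvPolynomial.coeff α
      ((∑ c ∈ Pr, ∏ v : Gr, (MvPolynomial.X (c v) : MvPolynomial (Fin 9) ℤ)) *
      ∏ p ∈ (Finset.univ : Finset (Fin 9 × Fin 9)).filter (fun p => p.1 < p.2),
      (MvPolynomial.X p.1 - MvPolynomial.X p.2 : MvPolynomial (Fin 9) ℤ)) =
    (LL.map (fun L => (T1 L : ℤ) - (T2 L : ℤ))).sum := by
  rw [coeff_main]
  have h1 : ∀ σ : Equiv.Perm (Fin 9), ((Equiv.Perm.sign σ : ℤˣ) : ℤ) *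
      (((Pr.filter
        (fun c => ∀ i, (univ.filter (fun v => c v = i)).card + (σ i : ℕ) = α i)).card : ℕ) : ℤ) =
      ∑ C ∈ (univ : Finset (Finset Gr)).filter (fun C => IsCh C ∧ C.card = 9),
        ((Equiv.Perm.sign σ : ℤˣ) : ℤ) *
        (((if σ 0 = 8 then (Tup C (fun i => (σ i.succ : ℕ))).card else 0 : ℕ)) : ℤ) := by
    intro σ
    rw [← Finset.mul_sum, ← Nat.cast_sum, ← count_main height α hα0 hα σ]
    refine congrArg (fun z : ℕ => ((Equiv.Perm.sign σ : ℤˣ) : ℤ) * (z : ℤ)) ?_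
    refine congrArg Finset.card ?_
    ext c
    simp only [Finset.mem_filter, Finset.mem_univ, true_and, hPr]
  have h3 := chains_sum (fun C => ∑ σ : Equiv.Perm (Fin 9), ((Equiv.Perm.sign σ : ℤˣ) : ℤ) *
      (((if σ 0 = 8 then (Tup C (fun i => (σ i.succ : ℕ))).card else 0 : ℕ)) : ℤ))
  have h2 : (LL.map (fun L => ∑ σ : Equiv.Perm (Fin 9), ((Equiv.Perm.sign σ : ℤˣ) : ℤ) *
      (((if σ 0 = 8 then (Tup (Cof L) (fun i => (σ i.succ : ℕ))).card else 0 : ℕ)) : ℤ))) =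
      (LL.map (fun L => (T1 L : ℤ) - (T2 L : ℤ))) :=
    List.map_congr_left fun L hL => step_C L hL
  rw [← h2]
  refine Eq.trans ?_ h3
  rw [Finset.sum_comm]
  exact Finset.sum_congr rfl (fun σ _ => h1 σ)

end Pool.Agent.H620R3.NR
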