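import Mathlib

set_option autoImplicit false
open Classical Finset

namespace Pool.Agent.H620R3.NR

open MvPolynomial

theorem vand_expand :
    (∏ p ∈ (Finset.univ : Finset (Fin 9 × Fin 9)).filter (fun p => p.1 < p.2),
      (MvPolynomial.X p.1 - MvPolynomial.X p.2 : MvPolynomial (Fin 9) ℤ)) =
    ∑ σ : Equiv.Perm (Fin 9), (((Equiv.Perm.sign σ : ℤˣ) : ℤ) : MvPolynomial (Fin 9) ℤ) *
      ∏ i, (X i : MvPolynomial (Fin 9) ℤ) ^ (σ i : ℕ) := by
  have h1 : (∏ p ∈ (Finset.univ : Finset (Fin 9 × Fin 9)).filter (fun p => p.1 < p.2),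
      (MvPolynomial.X p.1 - MvPolynomial.X p.2 : MvPolynomial (Fin 9) ℤ)) =
      ∏ p ∈ (Finset.univ : Finset (Fin 9 × Fin 9)).filter (fun p => p.1 < p.2),
      (MvPolynomial.X p.2 - MvPolynomial.X p.1 : MvPolynomial (Fin 9) ℤ) := by
    have hc : ((Finset.univ : Finset (Fin 9 × Fin 9)).filter (fun p => p.1 < p.2)).card = 36 := by
      decide
    calc _ = ∏ p ∈ (Finset.univ : Finset (Fin 9 × Fin 9)).filter (fun p => p.1 < p.2),
      ((-1) * (MvPolynomial.X p.2 - MvPolynomial.X p.1 : MvPolynomial (Fin 9) ℤ)) := by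
          refine Finset.prod_congr rfl fun p _ => by ring
      _ = _ := by rw [Finset.prod_mul_distrib, Finset.prod_const, hc]; norm_num
  have h2 : ∏ p ∈ (Finset.univ : Finset (Fin 9 × Fin 9)).filter (fun p => p.1 < p.2),
      (MvPolynomial.X p.2 - MvPolynomial.X p.1 : MvPolynomial (Fin 9) ℤ) =
      ∏ i : Fin 9, ∏ j ∈ Finset.Ioi i, (X j - X i : MvPolynomial (Fin 9) ℤ) := by
    rw [Finset.prod_filter, ← Finset.univ_product_univ, Finset.prod_product]
    refine Finset.prod_congr rfl fun i _ => ?_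
    rw [← Finset.prod_filter]
    refine Finset.prod_congr ?_ fun _ _ => rfl
    ext j; simp
  rw [h1, h2, ← Matrix.det_vandermonde, ← Matrix.det_transpose, Matrix.det_apply']
  rfl

theorem coeff_main {ι : Type*} [Fintype ι] (Pr : Finset (ι → Fin 9)) (α : Fin 9 →₀ ℕ) :
    MvPolynomial.coeff α ((∑ c ∈ Pr, ∏ v : ι, (X (c v) : MvPolynomial (Fin 9) ℤ)) *
      ∏ p ∈ (Finset.univ : Finset (Fin 9 × Fin 9)).filter (fun p => p.1 < p.2),
      (MvPolynomial.X p.1 - MvPolynomial.X p.2 : MvPolynomial (Fin 9) ℤ)) =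
    ∑ σ : Equiv.Perm (Fin 9), ((Equiv.Perm.sign σ : ℤˣ) : ℤ) *
      ((Pr.filter (fun c => ∀ i, (univ.filter (fun v => c v = i)).card + (σ i : ℕ) = α i)).card : ℤ)
      := by
  rw [vand_expand, Finset.mul_sum, MvPolynomial.coeff_sum]
  refine Finset.sum_congr rfl fun σ _ => ?_
  rw [mul_left_comm]
  have hC : (((Equiv.Perm.sign σ : ℤˣ) : ℤ) : MvPolynomial (Fin 9) ℤ) =
    C ((Equiv.Perm.sign σ : ℤˣ) : ℤ) := by simp
  rw [hC, MvPolynomial.coeff_C_mul, Finset.sum_mul, MvPolynomial.coeff_sum]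
  congr 1
  rw [Finset.card_filter]
  push_cast
  refine Finset.sum_congr rfl fun c _ => ?_
  have e1 : (∏ v : ι, (X (c v) : MvPolynomial (Fin 9) ℤ)) * ∏ i, X i ^ (σ i : ℕ) =
      monomial (∑ v : ι, Finsupp.single (c v) 1 + ∑ i, Finsupp.single i (σ i : ℕ)) 1 := by
    rw [← one_mul (1 : ℤ), ← MvPolynomial.monomial_mul]
    congr 1
    · rw [MvPolynomial.monomial_sum_one]; rfl
    · rw [MvPolynomial.monomial_sum_one]
      refine Finset.prod_congr rfl fun i _ => ?_
      rw [MvPolynomial.X_pow_eq_monomial]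
  rw [e1, MvPolynomial.coeff_monomial]
  refine if_congr ?_ rfl rfl
  rw [Finsupp.ext_iff]
  refine forall_congr' fun i => ?_
  rw [Finsupp.add_apply, Finsupp.finset_sum_apply, Finsupp.finset_sum_apply]
  simp only [Finsupp.single_apply]
  rw [Finset.card_filter, Finset.sum_ite_eq' univ i]
  simp

end Pool.Agent.H620R3.NR
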