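import Pool.Agent.H620R3.NR.A
import Pool.Agent.H620R3.NR.B
import Pool.Agent.H620R3.NR.D
import Pool.Agent.H620R3.NR.V

set_option autoImplicit false
open Classical Finset

namespace Pool.Agent.H620R3.NR

variable {ι : Type*} [Fintype ι] [PartialOrder ι]

/-- tuples of chains partitioning the complement of `C` -/
noncomputable def Tup (C : Finset ι) (s : Fin 8 → ℕ) : Finset (Fin 8 → Finset ι) :=
  univ.filter (fun t => (∀ i : Fin 8, IsCh (t i) ∧ (t i).card + s i + i = 9) ∧
    ∀ v, (univ.filter (fun i => v ∈ t i)).card = if v ∈ C then 0 else 1)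

theorem count_fiber (α : Fin 9 → ℕ) (hα0 : α 0 = 17) (hα : ∀ i : Fin 8, α i.succ + i = 9)
    (σ : Equiv.Perm (Fin 9)) (C : Finset ι) (hC : IsCh C) (hCc : C.card = 9) :
    ((((univ.filter (fun c : ι → Fin 9 => ∀ u v, ¬ u ≤ v → ¬ v ≤ u → c u ≠ c v)).filter
      (fun c => ∀ i, (univ.filter (fun v => c v = i)).card + (σ i : ℕ) = α i))).filter
        (fun c => univ.filter (fun v => c v = 0) = C)).card =
      if σ 0 = 8 then (Tup C (fun i => (σ i.succ : ℕ))).card else 0 := by
  split_ifs with h8
  · refine Finset.card_bij (fun c _ => fun i : Fin 8 => univ.filter (fun v => c v = i.succ)) ?_ ?_ ?_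
    · intro c hc
      simp only [Finset.mem_filter, Finset.mem_univ, true_and, Tup] at hc ⊢
      obtain ⟨⟨hp, hcont⟩, hC0⟩ := hc
      refine ⟨fun i => ⟨?_, ?_⟩, ?_⟩
      · intro u hu v hv
        simp only [Finset.mem_filter, Finset.mem_univ, true_and] at hu hv
        by_contra hcon
        push Not at hcon
        exact hp u v hcon.1 hcon.2 (hu.trans hv.symm)
      · have h1 := hcont i.succ
        have h2 := hα i
        omega
      · intro v
        have hvC : v ∈ C ↔ c v = 0 := by rw [← hC0]; simp
        split_ifs with hv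
        · rw [Finset.card_eq_zero, Finset.filter_eq_empty_iff]
          intro i _ h
          rw [hvC.mp hv] at h
          exact Fin.succ_ne_zero i h.symm
        · obtain ⟨j, hj⟩ := Fin.exists_succ_eq.mpr (fun h => hv (hvC.mpr h))
          rw [Finset.card_eq_one]
          refine ⟨j, ?_⟩
          ext i
          simp only [Finset.mem_filter, Finset.mem_univ, true_and, Finset.mem_singleton]
          rw [← hj, Fin.succ_inj]
          exact eq_comm
    · intro c hc c' hc' heq
      simp only [Finset.mem_filter, Finset.mem_univ, true_and] at hc hc'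
      have h1 : ∀ v, v ∈ C ↔ c v = 0 := fun v => by rw [← hc.2]; simp
      have h2 : ∀ v, v ∈ C ↔ c' v = 0 := fun v => by rw [← hc'.2]; simp
      funext v
      by_cases hv : c v = 0
      · rw [hv, (h2 v).mp ((h1 v).mpr hv)]
      · obtain ⟨j, hj⟩ := Fin.exists_succ_eq.mpr hv
        have h3 := congrFun heq j
        have h4 : v ∈ univ.filter (fun v => c v = j.succ) := by simp [hj]
        rw [h3] at h4
        simp only [Finset.mem_filter, Finset.mem_univ, true_and] at h4
        rw [h4, hj]
    · intro t ht
      simp only [Finset.mem_filter, Finset.mem_univ, true_and, Tup] at ht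
      obtain ⟨ht1, ht2⟩ := ht
      have hj : ∀ v, v ∉ C → ∃ j : Fin 8, ∀ i, v ∈ t i ↔ i = j := by
        intro v hv
        have h := ht2 v
        rw [if_neg hv, Finset.card_eq_one] at h
        obtain ⟨j, hj⟩ := h
        refine ⟨j, fun i => ?_⟩
        have : i ∈ univ.filter (fun i => v ∈ t i) ↔ i ∈ ({j} : Finset (Fin 8)) := by rw [hj]
        simpa using this
      choose! j hj using hj
      let c : ι → Fin 9 := fun v => if v ∈ C then 0 else (j v).succ
      have hc0 : ∀ v, c v = 0 ↔ v ∈ C := by
        intro v
        by_cases hv : v ∈ C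
        · simp [c, hv]
        · simp [c, hv, Fin.succ_ne_zero]
      have hcs : ∀ v i, c v = Fin.succ i ↔ v ∈ t i := by
        intro v i
        by_cases hv : v ∈ C
        · have h := ht2 v
          rw [if_pos hv, Finset.card_eq_zero, Finset.filter_eq_empty_iff] at h
          have h3 : v ∉ t i := h (Finset.mem_univ i)
          simp only [c, hv, if_true, h3, iff_false]
          exact (Fin.succ_ne_zero i).symm
        · simp only [c, hv, if_false]
          rw [hj v hv i, Fin.succ_inj]
          exact eq_comm
      have hf0 : univ.filter (fun v => c v = 0) = C := by ext v; simp [hc0]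
      have hfs : ∀ i : Fin 8, univ.filter (fun v => c v = Fin.succ i) = t i := by
        intro i; ext v; simp [hcs]
      refine ⟨c, ?_, ?_⟩
      · simp only [Finset.mem_filter, Finset.mem_univ, true_and]
        refine ⟨⟨?_, ?_⟩, hf0⟩
        · intro u v h1 h2 heq
          by_cases hv : c v = 0
          · rcases hC u ((hc0 u).mp (heq.trans hv)) v ((hc0 v).mp hv) with h | h
            · exact h1 h
            · exact h2 h
          · obtain ⟨i, hi⟩ := Fin.exists_succ_eq.mpr hv
            have hv' := (hcs v i).mp hi.symm
            have hu' := (hcs u i).mp (heq.trans hi.symm)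
            rcases (ht1 i).1 u hu' v hv' with h | h
            · exact h1 h
            · exact h2 h
        · intro i
          refine Fin.cases ?_ (fun i => ?_) i
          · rw [hf0, hCc, hα0, h8]; rfl
          · rw [hfs i]
            have h1 := (ht1 i).2
            have h2 := hα i
            omega
      · funext i; exact hfs i
  · rw [Finset.card_eq_zero, Finset.filter_eq_empty_iff]
    intro c hc heq
    simp only [Finset.mem_filter, Finset.mem_univ, true_and] at hc
    have h := hc.2 0
    rw [heq, hCc, hα0] at h
    apply h8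
    apply Fin.ext
    show (σ 0 : ℕ) = 8
    omega

theorem count_main (hht : ∀ A : Finset ι, IsCh A → A.card ≤ 9)
    (α : Fin 9 → ℕ) (hα0 : α 0 = 17) (hα : ∀ i : Fin 8, α i.succ + i = 9)
    (σ : Equiv.Perm (Fin 9)) :
    ((univ.filter (fun c : ι → Fin 9 => ∀ u v, ¬ u ≤ v → ¬ v ≤ u → c u ≠ c v)).filter
      (fun c => ∀ i, (univ.filter (fun v => c v = i)).card + (σ i : ℕ) = α i)).card =
      ∑ C ∈ (univ : Finset (Finset ι)).filter (fun C => IsCh C ∧ C.card = 9),
        if σ 0 = 8 then (Tup C (fun i => (σ i.succ : ℕ))).card else 0 := by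
  rw [Finset.card_eq_sum_card_fiberwise (t := univ) (f := fun c => univ.filter (fun v => c v = 0))
    (fun _ _ => Finset.mem_coe.mpr (Finset.mem_univ _))]
  rw [Finset.sum_filter]
  refine Finset.sum_congr rfl fun C _ => ?_
  split_ifs with h1 h2
  · rw [count_fiber α hα0 hα σ C h1.1 h1.2, if_pos h2]
  · rw [count_fiber α hα0 hα σ C h1.1 h1.2, if_neg h2]
  · rw [Finset.card_eq_zero, Finset.filter_eq_empty_iff]
    intro c hc heq
    simp only [Finset.mem_filter, Finset.mem_univ, true_and] at hc
    apply h1
    have hch : IsCh C := by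
      rw [← heq]
      intro u hu v hv
      simp only [Finset.mem_filter, Finset.mem_univ, true_and] at hu hv
      by_contra hcon
      push Not at hcon
      exact hc.1 u v hcon.1 hcon.2 (hu.trans hv.symm)
    refine ⟨hch, ?_⟩
    have h := hc.2 0
    rw [heq, hα0] at h
    have h3 := hht C hch
    have h4 : (σ 0 : ℕ) ≤ 8 := by have := (σ 0).2; omega
    omega

end Pool.Agent.H620R3.NR
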