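import Mathlib

set_option autoImplicit false

namespace Pool.Agent.H620R3.NR

/-- strict order of the grid on codes `5*x+y`. -/
def ltc (a b : ℕ) : Bool := (Nat.ble (a / 5) (b / 5)) && (Nat.ble (a % 5) (b % 5)) && !(Nat.beq a b)

def idx : List ℕ → ℕ → ℕ
  | [], _ => 0
  | a :: l, v => cond (Nat.beq a v) 0 (idx l v + 1)

/-- sum of `f u` over `u ∈ l` with not `v < u`. -/
def okSum (f : ℕ → ℕ) (v : ℕ) (l : List ℕ) : ℕ :=
  List.rec (motive := fun _ => ℕ) 0 (fun u _ ih => cond (ltc v u) ih (Nat.add (f u) ih)) l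

def Fn (L : List ℕ) (k : ℕ) : ℕ → ℕ :=
  Nat.rec (motive := fun _ => ℕ → ℕ) (fun v => Nat.shiftLeft 1 (Nat.mul 65 (Nat.pow 2 (idx L v))))
    (fun _ ih v => Nat.shiftLeft (okSum ih v L) (Nat.mul 65 (Nat.pow 2 (idx L v)))) k

def En (L : List ℕ) (k : ℕ) : ℕ :=
  List.rec (motive := fun _ => ℕ) 0 (fun u _ ih => Nat.add (Fn L k u) ih) L

/-- `65 * 65536` -/
def Mk : ℕ := Nat.sub (Nat.pow 2 4259840) 1

/-- truncated version of `Fn` -/
def Fm (L : List ℕ) (k : ℕ) : ℕ → ℕ :=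
  Nat.rec (motive := fun _ => ℕ → ℕ) (fun v => Nat.shiftLeft 1 (Nat.mul 65 (Nat.pow 2 (idx L v))))
    (fun _ ih v => Nat.land
      (Nat.shiftLeft (okSum ih v L) (Nat.mul 65 (Nat.pow 2 (idx L v)))) Mk) k

def Em (L : List ℕ) (k : ℕ) : ℕ :=
  List.rec (motive := fun _ => ℕ) 0 (fun u _ ih => Nat.add (Fm L k u) ih) L

def coef (a b : ℕ) : ℕ := Nat.mod (Nat.shiftRight (Nat.mul a b) (Nat.mul 65 65535)) (Nat.pow 2 65)

def T1 (L : List ℕ) : ℕ := coef (Em L 7) (Em L 7)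
def T2 (L : List ℕ) : ℕ := coef (Em L 8) (Em L 6)

end Pool.Agent.H620R3.NR
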