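import Pool.Agent.H620R3.NR.P
import Pool.Agent.H620R3.NR.Num

set_option autoImplicit false
open Classical Finset Polynomial

namespace Pool.Agent.H620R3.NR

abbrev Gr := Fin 2 → Fin 5

def code (v : Gr) : ℕ := 5 * (v 0 : ℕ) + (v 1 : ℕ)

def dec (a : ℕ) : Gr := ![⟨(a / 5) % 5, Nat.mod_lt _ (by norm_num)⟩, ⟨a % 5, Nat.mod_lt _ (by norm_num)⟩]

theorem code_lt (v : Gr) : code v < 25 := by
  unfold code
  have h0 := (v 0).2
  have h1 := (v 1).2
  omega

theorem dec_code (v : Gr) : dec (code v) = v := by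
  have h0 := (v 0).2
  have h1 := (v 1).2
  funext i
  fin_cases i
  · apply Fin.ext
    show (code v / 5) % 5 = (v 0 : ℕ)
    unfold code; omega
  · apply Fin.ext
    show (code v) % 5 = (v 1 : ℕ)
    unfold code; omega

theorem code_dec (a : ℕ) (ha : a < 25) : code (dec a) = a := by
  show 5 * ((a / 5) % 5) + a % 5 = a
  omega

theorem code_inj {u v : Gr} (h : code u = code v) : u = v := by
  rw [← dec_code u, ← dec_code v, h]

theorem le_iff (u v : Gr) : u ≤ v ↔ (u 0 : ℕ) ≤ v 0 ∧ (u 1 : ℕ) ≤ v 1 := by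
  rw [Pi.le_def, Fin.forall_fin_two]; rfl

theorem ltc_iff (u v : Gr) : ltc (code u) (code v) = true ↔ u < v := by
  have h0 := (u 0).2
  have h1 := (u 1).2
  have h2 := (v 0).2
  have h3 := (v 1).2
  have e0 : code u / 5 = (u 0 : ℕ) := by unfold code; omega
  have e1 : code u % 5 = (u 1 : ℕ) := by unfold code; omega
  have e2 : code v / 5 = (v 0 : ℕ) := by unfold code; omega
  have e3 : code v % 5 = (v 1 : ℕ) := by unfold code; omega
  have hne : code u = code v ↔ u = v := ⟨code_inj, fun h => by rw [h]⟩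
  unfold ltc
  rw [Bool.and_eq_true, Bool.and_eq_true, e0, e1, e2, e3, Nat.ble_eq, Nat.ble_eq, lt_iff_le_and_ne,
    le_iff, Bool.not_eq_true', ← Bool.not_eq_true, Nat.beq_eq, hne]

theorem idx_get : ∀ (L : List ℕ), L.Nodup → ∀ (j : ℕ) (hj : j < L.length), idx L (L[j]) = j := by
  intro L
  induction L with
  | nil => intro _ j hj; simp at hj
  | cons a l ih =>
    intro hn j hj
    rw [List.nodup_cons] at hn
    cases j with
    | zero => simp [idx]
    | succ j =>
      simp only [List.length_cons] at hj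
      have hj' : j < l.length := by omega
      have hne : Nat.beq a l[j] = false := by
        rw [← Bool.not_eq_true, Nat.beq_eq]
        intro h; apply hn.1; rw [h]; exact List.getElem_mem _
      simp only [List.getElem_cons_succ, idx, hne, cond_false]
      rw [ih hn.2 j hj']

/-- sums supported on a list -/
theorem sum_list {M : Type*} [AddCommMonoid M] (L : List ℕ) (hn : L.Nodup) (hb : ∀ a ∈ L, a < 25)
    (f : Gr → M) (hf : ∀ v, code v ∉ L → f v = 0) : ∑ v, f v = (L.map (fun a => f (dec a))).sum := by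
  have hn2 : (L.map dec).Nodup := by
    rw [List.nodup_map_iff_inj_on hn]
    intro a ha b hb' hab
    rw [← code_dec a (hb a ha), ← code_dec b (hb b hb'), hab]
  have h1 : ∑ v ∈ (L.map dec).toFinset, f v = ((L.map dec).map f).sum := List.sum_toFinset f hn2
  rw [List.map_map] at h1
  have h2 : (L.map (fun a => f (dec a))).sum = ∑ v ∈ (L.map dec).toFinset, f v := by
    rw [h1]; rfl
  rw [h2]
  symm
  apply Finset.sum_subset (Finset.subset_univ _)
  intro v _ hv
  apply hf
  intro hmem
  apply hv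
  rw [List.mem_toFinset, List.mem_map]
  exact ⟨code v, hmem, dec_code v⟩

noncomputable def yN (L : List ℕ) : Gr → ℕ :=
  fun v => if code v ∈ L then 2 ^ (65 * 2 ^ (idx L (code v))) else 0

noncomputable def yP (L : List ℕ) : Gr → ℕ[X] :=
  fun v => if code v ∈ L then X ^ (2 ^ (idx L (code v))) else 0

noncomputable def yZ (L : List ℕ) : Gr → ℤ[X] :=
  fun v => if code v ∈ L then X ^ (2 ^ (idx L (code v))) else 0

theorem F_zero_of {R : Type*} [CommSemiring R] (y : Gr → R) (k : ℕ) (v : Gr) (h : y v = 0) :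
    F y k v = 0 := by
  cases k with
  | zero => exact h
  | succ k => simp only [F, h, zero_mul]

theorem okSum_eq (f : ℕ → ℕ) (v : ℕ) : ∀ L : List ℕ,
    okSum f v L = (L.map (fun a => if ltc v a then 0 else f a)).sum := by
  intro L
  induction L with
  | nil => rfl
  | cons a l ih =>
    have : okSum f v (a :: l) = cond (ltc v a) (okSum f v l) (Nat.add (f a) (okSum f v l)) := rfl
    rw [this, List.map_cons, List.sum_cons, ← ih]
    cases ltc v a
    · rfl
    · simp

theorem En_eq (L : List ℕ) (k : ℕ) : En L k = (L.map (Fn L k)).sum := by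
  have : ∀ (f : ℕ → ℕ) (l : List ℕ),
      List.rec (motive := fun _ => ℕ) 0 (fun u _ ih => Nat.add (f u) ih) l = (l.map f).sum := by
    intro f l
    induction l with
    | nil => rfl
    | cons a l ih => rw [List.map_cons, List.sum_cons, ← ih]; rfl
  exact this (Fn L k) L

theorem Fn_eq (L : List ℕ) (hn : L.Nodup) (hb : ∀ a ∈ L, a < 25) :
    ∀ (k : ℕ) (v : Gr), code v ∈ L → F (yN L) k v = Fn L k (code v) := by
  intro k
  induction k with
  | zero =>
    intro v hv
    show yN L v = 1 <<< (65 * 2 ^ (idx L (code v)))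
    rw [Nat.shiftLeft_eq, one_mul]
    unfold yN
    rw [if_pos hv]
  | succ k ih =>
    intro v hv
    have h1 : Fn L (k + 1) (code v) = (okSum (Fn L k) (code v) L) <<< (65 * 2 ^ (idx L (code v))) := rfl
    rw [h1, Nat.shiftLeft_eq, okSum_eq]
    show yN L v * ∑ u ∈ univ.filter (fun u => ¬ v < u), F (yN L) k u = _
    have h2 : yN L v = 2 ^ (65 * 2 ^ (idx L (code v))) := by unfold yN; rw [if_pos hv]
    rw [h2, mul_comm]
    congr 1
    rw [Finset.sum_filter, sum_list L hn hb]
    · congr 1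
      refine List.map_congr_left fun a ha => ?_
      have hca := code_dec a (hb a ha)
      have h3 := ih (dec a) (by rw [hca]; exact ha)
      rw [hca] at h3
      have h4 := ltc_iff v (dec a)
      rw [hca] at h4
      by_cases h5 : v < dec a
      · rw [if_neg (not_not.mpr h5), if_pos (h4.mpr h5)]
      · rw [if_pos h5, if_neg (fun h => h5 (h4.mp h)), h3]
    · intro u hu
      rw [F_zero_of _ _ _ (by unfold yN; rw [if_neg hu])]
      simp

theorem E_eq (L : List ℕ) (hn : L.Nodup) (hb : ∀ a ∈ L, a < 25) (k : ℕ) :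
    E (yN L) (k + 1) = En L k := by
  rw [En_eq]
  show ∑ v, F (yN L) k v = _
  rw [sum_list L hn hb]
  · congr 1
    refine List.map_congr_left fun a ha => ?_
    have hca := code_dec a (hb a ha)
    have h3 := Fn_eq L hn hb k (dec a) (by rw [hca]; exact ha)
    rw [hca] at h3
    exact h3
  · intro u hu
    exact F_zero_of _ _ _ (by unfold yN; rw [if_neg hu])

theorem E_le {ι : Type*} [Fintype ι] [PartialOrder ι] (y : ι → ℕ) :
    ∀ k, E y k ≤ (∑ v, y v) ^ k := by
  intro k
  rcases k with _ | k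
  · simp [E]
  · induction k with
    | zero => simp [E, F]
    | succ k ih =>
      have h1 : E y (k + 1 + 1) ≤ (∑ v, y v) * E y (k + 1) := by
        show ∑ v, F y (k + 1) v ≤ (∑ v, y v) * ∑ v, F y k v
        rw [Finset.sum_mul]
        refine Finset.sum_le_sum fun v _ => ?_
        show y v * _ ≤ _
        refine Nat.mul_le_mul_left _ ?_
        exact Finset.sum_le_sum_of_subset (Finset.filter_subset _ _)
      calc E y (k + 1 + 1) ≤ (∑ v, y v) * E y (k + 1) := h1
        _ ≤ (∑ v, y v) * (∑ v, y v) ^ (k + 1) := Nat.mul_le_mul_left _ ih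
        _ = _ := by ring

theorem digit_lemma (L : List ℕ) (hn : L.Nodup) (hb : ∀ a ∈ L, a < 25) (hlen : L.length = 16)
    (a b : ℕ) (hab : a + 1 + (b + 1) = 16) (N : ℕ) :
    (E (yP L) (a + 1) * E (yP L) (b + 1)).coeff N =
      (((En L a) * (En L b)) / 2 ^ (65 * N)) % 2 ^ 65 := by
  set p := E (yP L) (a + 1) * E (yP L) (b + 1) with hp
  have hev : ∀ c, (E (yP L) (c + 1)).eval (2 ^ 65) = En L c := by
    intro c
    have h1 := map_E (Polynomial.evalRingHom (2 ^ 65 : ℕ)) (yP L) (c + 1)
    rw [Polynomial.coe_evalRingHom] at h1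
    rw [h1, ← E_eq L hn hb c]
    congr 1
    funext v
    unfold yP yN
    split_ifs with h
    · rw [Polynomial.eval_pow, Polynomial.eval_X, ← pow_mul]
    · simp
  have h1 : ∀ c, (E (yP L) c).eval 1 ≤ 16 ^ c := by
    intro c
    have h2 := map_E (Polynomial.evalRingHom (1 : ℕ)) (yP L) c
    rw [Polynomial.coe_evalRingHom] at h2
    rw [h2]
    refine (E_le _ c).trans ?_
    refine Nat.pow_le_pow_left ?_ c
    have h3 : ∀ v : Gr, Polynomial.eval 1 (yP L v) = if code v ∈ L then 1 else 0 := by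
      intro v; unfold yP; split_ifs <;> simp
    simp only [h3]
    rw [sum_list L hn hb _ (fun v hv => if_neg hv)]
    refine le_of_eq ?_
    rw [List.map_congr_left (g := fun _ => 1) (fun x hx => by
      rw [code_dec x (hb x hx), if_pos hx])]
    simp [hlen]
  have hlt : ∀ i, p.coeff i < 2 ^ 65 := by
    intro i
    refine (coeff_le_eval_one p i).trans_lt ?_
    rw [hp, Polynomial.eval_mul]
    calc _ ≤ 16 ^ (a + 1) * 16 ^ (b + 1) := Nat.mul_le_mul (h1 _) (h1 _)
      _ = 16 ^ 16 := by rw [← pow_add, hab]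
      _ < 2 ^ 65 := by norm_num
  rw [coeff_eq_digit (2 ^ 65) (by positivity) N p hlt, hp, Polynomial.eval_mul, hev, hev, ← pow_mul]

theorem yZ_eq (L : List ℕ) (c : ℕ) :
    E (yZ L) c = (E (yP L) c).map (Nat.castRingHom ℤ) := by
  have h1 := map_E (Polynomial.mapRingHom (Nat.castRingHom ℤ)) (yP L) c
  rw [Polynomial.coe_mapRingHom] at h1
  rw [h1]
  congr 1
  funext v
  unfold yP yZ
  split_ifs with h
  · rw [Polynomial.map_pow, Polynomial.map_X]
  · simp

theorem T_eq (L : List ℕ) (hn : L.Nodup) (hb : ∀ a ∈ L, a < 25) (hlen : L.length = 16) (N : ℕ) :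
    (E (yZ L) 8 * E (yZ L) 8 - E (yZ L) 9 * E (yZ L) 7).coeff N =
      ((((En L 7) * (En L 7)) / 2 ^ (65 * N)) % 2 ^ 65 : ℕ) -
      ((((En L 8) * (En L 6)) / 2 ^ (65 * N)) % 2 ^ 65 : ℕ) := by
  rw [Polynomial.coeff_sub]
  simp only [yZ_eq, ← Polynomial.map_mul, Polynomial.coeff_map]
  rw [digit_lemma L hn hb hlen 7 7 (by norm_num), digit_lemma L hn hb hlen 8 6 (by norm_num)]
  rfl

end Pool.Agent.H620R3.NR
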