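import Pool.Agent.H620R3.NR.M

set_option autoImplicit false
open Classical Finset Polynomial

namespace Pool.Agent.H620R3.NR

variable {ι : Type*} [Fintype ι] [PartialOrder ι]

theorem prod_split {M : Type*} [CommMonoid M] (g : Fin 16 → ι) (hg : Function.Injective g)
    (C : Finset ι) (hC : ∀ v, v ∈ C ↔ ∀ j, g j ≠ v) (f : ι → M) :
    ∏ v, f v = (∏ v ∈ C, f v) * ∏ j, f (g j) := by
  have h1 : Cᶜ = univ.image g := by
    ext v
    simp only [Finset.mem_compl, Finset.mem_image, Finset.mem_univ, true_and, hC]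
    push Not
    rfl
  rw [← Finset.prod_mul_prod_compl C f, h1, Finset.prod_image (fun a _ b _ h => hg h)]

theorem term_coeff (g : Fin 16 → ι) (hg : Function.Injective g)
    (C : Finset ι) (hC : ∀ v, v ∈ C ↔ ∀ j, g j ≠ v) (y : ι → ℤ[X])
    (hy : ∀ j, y (g j) = X ^ (2 ^ (j : ℕ))) (hy0 : ∀ v ∈ C, y v = 0)
    (t : Fin 8 → Finset ι) (ht : ∑ i, (t i).card = 16) :
    (∏ i, ∏ v ∈ t i, y v).coeff 65535 =
      if (∀ v, (univ.filter (fun i => v ∈ t i)).card = if v ∈ C then 0 else 1) then 1 else 0 := by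
  set m : ι → ℕ := fun v => (univ.filter (fun i => v ∈ t i)).card with hm
  have h1 : ∏ i, ∏ v ∈ t i, y v = ∏ v, y v ^ m v := by
    have : ∀ i, ∏ v ∈ t i, y v = ∏ v, if v ∈ t i then y v else 1 := by
      intro i
      rw [Finset.prod_ite_mem]; simp
    simp only [this]
    rw [Finset.prod_comm]
    refine Finset.prod_congr rfl fun v _ => ?_
    rw [hm, ← Finset.prod_const, Finset.prod_filter]
  have h2 : ∑ v, m v = 16 := by
    rw [← ht]
    simp only [hm, Finset.card_filter]
    rw [Finset.sum_comm]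
    refine Finset.sum_congr rfl fun i _ => ?_
    simp
  rw [h1, prod_split g hg C hC]
  have h3 : ∏ j, y (g j) ^ m (g j) = X ^ (∑ j : Fin 16, m (g j) * 2 ^ (j : ℕ)) := by
    rw [← Finset.prod_pow_eq_pow_sum]
    refine Finset.prod_congr rfl fun j _ => ?_
    rw [hy, ← pow_mul, mul_comm]
  rw [h3]
  by_cases hz : ∀ v ∈ C, m v = 0
  · have h4 : ∏ v ∈ C, y v ^ m v = 1 := Finset.prod_eq_one fun v hv => by rw [hz v hv, pow_zero]
    rw [h4, one_mul, Polynomial.coeff_X_pow]
    have hsum : ∑ j, m (g j) ≤ 16 := by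
      have h7 := Finset.sum_image (s := univ) (f := m) (g := g) (fun a _ b _ h => hg h)
      calc ∑ j, m (g j) = ∑ v ∈ univ.image g, m v := h7.symm
        _ ≤ ∑ v, m v := Finset.sum_le_sum_of_subset (Finset.subset_univ _)
        _ = 16 := h2
    refine if_congr ⟨?_, ?_⟩ rfl rfl
    · intro h5
      set m' : ℕ → ℕ := fun k => if h : k < 16 then m (g ⟨k, h⟩) else 0 with hm'
      have e1 : ∀ j : Fin 16, m (g j) = m' j := by intro j; simp [hm']
      have key := lemL 16 m' (by
        rw [← Fin.sum_univ_eq_sum_range (fun k => m' k) 16]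
        simpa [e1] using hsum) (by
        rw [← Fin.sum_univ_eq_sum_range (fun k => m' k * 2 ^ k) 16]
        simp only [e1] at h5
        rw [← h5]; norm_num)
      intro v
      by_cases hv : v ∈ C
      · rw [if_pos hv]; exact hz v hv
      · rw [if_neg hv]
        have : ∃ j, g j = v := by
          by_contra hcon; push Not at hcon; exact hv ((hC v).mpr hcon)
        obtain ⟨j, rfl⟩ := this
        have := key j j.2
        rw [← e1] at this
        exact this
    · intro h5
      have e1 : ∀ j, m (g j) = 1 := fun j => by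
        have h6 := h5 (g j)
        rw [if_neg (fun h => (hC _).mp h j rfl)] at h6
        exact h6
      simp only [e1, one_mul]
      decide
  · push Not at hz
    obtain ⟨v, hv, hv0⟩ := hz
    have h4 : ∏ v ∈ C, y v ^ m v = 0 := Finset.prod_eq_zero hv (by
      rw [hy0 v hv, zero_pow hv0])
    rw [h4, zero_mul, Polynomial.coeff_zero, if_neg]
    intro h5
    have h6 := h5 v
    rw [if_pos hv] at h6
    exact hv0 h6

theorem prod_coeff (g : Fin 16 → ι) (hg : Function.Injective g)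
    (C : Finset ι) (hC : ∀ v, v ∈ C ↔ ∀ j, g j ≠ v) (y : ι → ℤ[X])
    (hy : ∀ j, y (g j) = X ^ (2 ^ (j : ℕ))) (hy0 : ∀ v ∈ C, y v = 0)
    (s : Fin 8 → ℕ) (hs : ∑ i : Fin 8, (s i + (i : ℕ)) = 56) :
    (∏ i : Fin 8, hh (hS y univ) i (s i)).coeff 65535 = ((Tup C s).card : ℤ) := by
  have h0 : ∀ i : Fin 8, hh (hS y univ) i (s i) =
      ∑ A ∈ (univ : Finset (Finset ι)).filter (fun A => IsCh A ∧ A.card + s i + i = 9),
        ∏ v ∈ A, y v := by
    intro i
    unfold hh
    split_ifs with h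
    · unfold hS
      rw [Finset.powerset_univ]
      refine Finset.sum_congr ?_ fun _ _ => rfl
      ext A
      simp only [Finset.mem_filter, Finset.mem_univ, true_and]
      constructor
      · rintro ⟨h1, h2⟩; exact ⟨h1, by omega⟩
      · rintro ⟨h1, h2⟩; exact ⟨h1, by omega⟩
    · symm
      refine Finset.sum_eq_zero fun A hA => ?_
      simp only [Finset.mem_filter, Finset.mem_univ, true_and] at hA
      omega
  simp only [h0]
  rw [Finset.prod_univ_sum, Polynomial.finsetSum_coeff]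
  have h1 : Tup C s = (Fintype.piFinset (fun i : Fin 8 => (univ : Finset (Finset ι)).filter
      (fun A => IsCh A ∧ A.card + s i + i = 9))).filter (fun t =>
        ∀ v, (univ.filter (fun i => v ∈ t i)).card = if v ∈ C then 0 else 1) := by
    ext t
    simp only [Tup, Finset.mem_filter, Finset.mem_univ, true_and, Fintype.mem_piFinset]
  rw [h1, Finset.card_filter]
  push_cast
  refine Finset.sum_congr rfl fun t ht => ?_
  simp only [Finset.mem_filter, Finset.mem_univ, true_and, Fintype.mem_piFinset] at ht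
  rw [term_coeff g hg C hC y hy hy0 t]
  have : ∑ i : Fin 8, ((t i).card + (s i + (i : ℕ))) = 72 := by
    rw [Finset.sum_congr rfl (fun i _ => show (t i).card + (s i + (i : ℕ)) = 9 from by
      have := (ht i).2; omega)]
    simp
  rw [Finset.sum_add_distrib, hs] at this
  omega

noncomputable def MM {R : Type*} [CommRing R] (h : ℕ → R) : Matrix (Fin 9) (Fin 9) R := Matrix.of fun i j =>
    Fin.cases (motive := fun _ => R) (if j = Fin.last 8 then 1 else 0)
      (fun i' => hh h i' j) i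

theorem MM_zero {R : Type*} [CommRing R] (h : ℕ → R) (j : Fin 9) :
    MM h 0 j = if j = Fin.last 8 then 1 else 0 := by
  simp only [MM, Matrix.of_apply, Fin.cases_zero]

theorem MM_succ {R : Type*} [CommRing R] (h : ℕ → R) (i : Fin 8) (j : Fin 9) :
    MM h i.succ j = hh h i j := by
  simp only [MM, Matrix.of_apply, Fin.cases_succ]

theorem MM_det {R : Type*} [CommRing R] (h : ℕ → R) :
    (MM h).det = (Matrix.of fun i j : Fin 8 => hh h i j).det := by
  rw [Matrix.det_succ_row_zero, Finset.sum_eq_single (Fin.last 8)]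
  · rw [MM_zero, if_pos rfl]
    have h2 : (MM h).submatrix Fin.succ (Fin.last 8).succAbove =
        Matrix.of fun i j : Fin 8 => hh h i j := by
      refine Matrix.ext fun i j => ?_
      rw [Matrix.submatrix_apply, MM_succ, Fin.succAbove_last, Fin.val_castSucc]
      rfl
    rw [h2]
    have h9 : ((-1 : R) ^ ((Fin.last 8 : Fin 9) : ℕ)) = 1 := by
      rw [Fin.val_last]; norm_num
    rw [h9, one_mul, one_mul]
  · intro b _ hb
    rw [MM_zero, if_neg hb]; ring
  · intro h; exact absurd (Finset.mem_univ _) h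

theorem det_MM {R : Type*} [CommRing R] (h : ℕ → R) :
    (MM h).det = ∑ σ : Equiv.Perm (Fin 9), ((Equiv.Perm.sign σ : ℤˣ) : ℤ) •
      ((if σ 0 = 8 then 1 else 0) * ∏ i : Fin 8, hh h i (σ i.succ)) := by
  rw [← Matrix.det_transpose, Matrix.det_apply]
  refine Finset.sum_congr rfl fun σ _ => ?_
  rw [Units.smul_def]
  refine congrArg (fun z => ((Equiv.Perm.sign σ : ℤˣ) : ℤ) • z) ?_
  simp only [Matrix.transpose_apply]
  rw [Fin.prod_univ_succ]
  simp only [MM_zero, MM_succ]
  have hlast : (Fin.last 8 : Fin 9) = 8 := by decide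
  rw [hlast]

theorem perm_sum (σ : Equiv.Perm (Fin 9)) (h8 : σ 0 = 8) :
    ∑ i : Fin 8, ((σ i.succ : ℕ) + (i : ℕ)) = 56 := by
  rw [Finset.sum_add_distrib]
  have h5 : ∑ i : Fin 9, (σ i : ℕ) = 36 := by
    rw [Equiv.sum_comp σ (fun i => (i : ℕ))]; decide
  rw [Fin.sum_univ_succ, h8] at h5
  have h6 : ((8 : Fin 9) : ℕ) = 8 := rfl
  rw [h6] at h5
  have h7 : ∑ i : Fin 8, (i : ℕ) = 28 := by decide
  rw [h7]; omega

theorem det_step_aux (y : ι → ℤ[X]) (N : ℕ) (T : (Fin 8 → ℕ) → ℕ)
    (hT : ∀ s : Fin 8 → ℕ, ∑ i : Fin 8, (s i + (i : ℕ)) = 56 →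
      (∏ i : Fin 8, hh (hS y univ) i (s i)).coeff N = (T s : ℤ)) :
    ∑ σ : Equiv.Perm (Fin 9), ((Equiv.Perm.sign σ : ℤˣ) : ℤ) *
      (((if σ 0 = 8 then T (fun i => (σ i.succ : ℕ)) else 0 : ℕ)) : ℤ) =
    (MM (hS y univ)).det.coeff N := by
  rw [det_MM, Polynomial.finsetSum_coeff]
  refine Finset.sum_congr rfl fun σ _ => ?_
  rw [Polynomial.coeff_smul, smul_eq_mul]
  congr 1
  split_ifs with h8
  · rw [one_mul, hT (fun i => (σ i.succ : ℕ)) (perm_sum σ h8)]
  · rw [zero_mul, Polynomial.coeff_zero, Nat.cast_zero]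

theorem det_step_aux2 (y : ι → ℤ[X]) :
    (MM (hS y univ)).det = E y 8 * E y 8 - E y 9 * E y 7 := by
  rw [MM_det, ← det8 (hS y univ) (E y) (hS_zero y univ) rfl (eh_rel y)]

theorem det_step (g : Fin 16 → ι) (hg : Function.Injective g)
    (C : Finset ι) (hC : ∀ v, v ∈ C ↔ ∀ j, g j ≠ v) (y : ι → ℤ[X])
    (hy : ∀ j, y (g j) = X ^ (2 ^ (j : ℕ))) (hy0 : ∀ v ∈ C, y v = 0) :
    ∑ σ : Equiv.Perm (Fin 9), ((Equiv.Perm.sign σ : ℤˣ) : ℤ) *
      (((if σ 0 = 8 then (Tup C (fun i => (σ i.succ : ℕ))).card else 0 : ℕ)) : ℤ) =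
    (E y 8 * E y 8 - E y 9 * E y 7).coeff 65535 := by
  rw [← det_step_aux2]
  exact det_step_aux y 65535 (fun s => (Tup C s).card)
    (fun s hs => prod_coeff g hg C hC y hy hy0 s hs)

end Pool.Agent.H620R3.NR
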