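import Pool.Agent.H620R3.NR.Num

set_option autoImplicit false

namespace Pool.Agent.H620R3.NR

theorem tv0 : (Nat.beq (T1 [5, 6, 7, 8, 10, 11, 12, 13, 15, 16, 17, 18, 20, 21, 22, 23]) 654947616 &&
    Nat.beq (T2 [5, 6, 7, 8, 10, 11, 12, 13, 15, 16, 17, 18, 20, 21, 22, 23]) 654801528) = true := by
  decide +kernel

theorem tv1 : (Nat.beq (T1 [4, 5, 6, 7, 10, 11, 12, 13, 15, 16, 17, 18, 20, 21, 22, 23]) 2198918400 &&
    Nat.beq (T2 [4, 5, 6, 7, 10, 11, 12, 13, 15, 16, 17, 18, 20, 21, 22, 23]) 2201383296) = true := by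
  decide +kernel

theorem tv2 : (Nat.beq (T1 [4, 5, 6, 7, 9, 10, 11, 12, 15, 16, 17, 18, 20, 21, 22, 23]) 5320466936 &&
    Nat.beq (T2 [4, 5, 6, 7, 9, 10, 11, 12, 15, 16, 17, 18, 20, 21, 22, 23]) 5319312464) = true := by
  decide +kernel

theorem tv3 : (Nat.beq (T1 [4, 5, 6, 7, 9, 10, 11, 12, 14, 15, 16, 17, 20, 21, 22, 23]) 9431363448 &&
    Nat.beq (T2 [4, 5, 6, 7, 9, 10, 11, 12, 14, 15, 16, 17, 20, 21, 22, 23]) 9430950964) = true := by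
  decide +kernel

theorem tv4 : (Nat.beq (T1 [4, 5, 6, 7, 9, 10, 11, 12, 14, 15, 16, 17, 19, 20, 21, 22]) 9940600440 &&
    Nat.beq (T2 [4, 5, 6, 7, 9, 10, 11, 12, 14, 15, 16, 17, 19, 20, 21, 22]) 9940701564) = true := by
  decide +kernel

end Pool.Agent.H620R3.NR
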