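import Pool.Agent.H620R3.NR.Num

set_option autoImplicit false

namespace Pool.Agent.H620R3.NR

theorem tv5 : (Nat.beq (T1 [3, 4, 5, 6, 10, 11, 12, 13, 15, 16, 17, 18, 20, 21, 22, 23]) 5320466936 &&
    Nat.beq (T2 [3, 4, 5, 6, 10, 11, 12, 13, 15, 16, 17, 18, 20, 21, 22, 23]) 5319312464) = true := by
  decide +kernel

theorem tv6 : (Nat.beq (T1 [3, 4, 5, 6, 9, 10, 11, 12, 15, 16, 17, 18, 20, 21, 22, 23]) 12603391744 &&
    Nat.beq (T2 [3, 4, 5, 6, 9, 10, 11, 12, 15, 16, 17, 18, 20, 21, 22, 23]) 12611146050) = true := by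
  decide +kernel

theorem tv7 : (Nat.beq (T1 [3, 4, 5, 6, 9, 10, 11, 12, 14, 15, 16, 17, 20, 21, 22, 23]) 21910412648 &&
    Nat.beq (T2 [3, 4, 5, 6, 9, 10, 11, 12, 14, 15, 16, 17, 20, 21, 22, 23]) 21907582852) = true := by
  decide +kernel

theorem tv8 : (Nat.beq (T1 [3, 4, 5, 6, 9, 10, 11, 12, 14, 15, 16, 17, 19, 20, 21, 22]) 22711481576 &&
    Nat.beq (T2 [3, 4, 5, 6, 9, 10, 11, 12, 14, 15, 16, 17, 19, 20, 21, 22]) 22711132264) = true := by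
  decide +kernel

theorem tv9 : (Nat.beq (T1 [3, 4, 5, 6, 8, 9, 10, 11, 15, 16, 17, 18, 20, 21, 22, 23]) 19939006784 &&
    Nat.beq (T2 [3, 4, 5, 6, 8, 9, 10, 11, 15, 16, 17, 18, 20, 21, 22, 23]) 19937411060) = true := by
  decide +kernel

end Pool.Agent.H620R3.NR
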