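import Pool.Agent.H620R3.NR.Num

set_option autoImplicit false

namespace Pool.Agent.H620R3.NR

theorem tv10 : (Nat.beq (T1 [3, 4, 5, 6, 8, 9, 10, 11, 14, 15, 16, 17, 20, 21, 22, 23]) 33967546816 &&
    Nat.beq (T2 [3, 4, 5, 6, 8, 9, 10, 11, 14, 15, 16, 17, 20, 21, 22, 23]) 33969862664) = true := by
  decide +kernel

theorem tv11 : (Nat.beq (T1 [3, 4, 5, 6, 8, 9, 10, 11, 14, 15, 16, 17, 19, 20, 21, 22]) 34699411016 &&
    Nat.beq (T2 [3, 4, 5, 6, 8, 9, 10, 11, 14, 15, 16, 17, 19, 20, 21, 22]) 34700146648) = true := by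
  decide +kernel

theorem tv12 : (Nat.beq (T1 [3, 4, 5, 6, 8, 9, 10, 11, 13, 14, 15, 16, 20, 21, 22, 23]) 35122979184 &&
    Nat.beq (T2 [3, 4, 5, 6, 8, 9, 10, 11, 13, 14, 15, 16, 20, 21, 22, 23]) 35124357788) = true := by
  decide +kernel

theorem tv13 : (Nat.beq (T1 [3, 4, 5, 6, 8, 9, 10, 11, 13, 14, 15, 16, 19, 20, 21, 22]) 35172396312 &&
    Nat.beq (T2 [3, 4, 5, 6, 8, 9, 10, 11, 13, 14, 15, 16, 19, 20, 21, 22]) 35171781540) = true := by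
  decide +kernel

theorem tv14 : (Nat.beq (T1 [3, 4, 5, 6, 8, 9, 10, 11, 13, 14, 15, 16, 18, 19, 20, 21]) 21450622568 &&
    Nat.beq (T2 [3, 4, 5, 6, 8, 9, 10, 11, 13, 14, 15, 16, 18, 19, 20, 21]) 21449955312) = true := by
  decide +kernel

end Pool.Agent.H620R3.NR
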