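import Pool.Agent.H620R3.NR.Num

set_option autoImplicit false

namespace Pool.Agent.H620R3.NR

theorem tv15 : (Nat.beq (T1 [2, 3, 4, 5, 10, 11, 12, 13, 15, 16, 17, 18, 20, 21, 22, 23]) 9431363448 &&
    Nat.beq (T2 [2, 3, 4, 5, 10, 11, 12, 13, 15, 16, 17, 18, 20, 21, 22, 23]) 9430950964) = true := by
  decide +kernel

theorem tv16 : (Nat.beq (T1 [2, 3, 4, 5, 9, 10, 11, 12, 15, 16, 17, 18, 20, 21, 22, 23]) 21910412648 &&
    Nat.beq (T2 [2, 3, 4, 5, 9, 10, 11, 12, 15, 16, 17, 18, 20, 21, 22, 23]) 21907582852) = true := by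
  decide +kernel

theorem tv17 : (Nat.beq (T1 [2, 3, 4, 5, 9, 10, 11, 12, 14, 15, 16, 17, 20, 21, 22, 23]) 37601720744 &&
    Nat.beq (T2 [2, 3, 4, 5, 9, 10, 11, 12, 14, 15, 16, 17, 20, 21, 22, 23]) 37607358780) = true := by
  decide +kernel

theorem tv18 : (Nat.beq (T1 [2, 3, 4, 5, 9, 10, 11, 12, 14, 15, 16, 17, 19, 20, 21, 22]) 38719330312 &&
    Nat.beq (T2 [2, 3, 4, 5, 9, 10, 11, 12, 14, 15, 16, 17, 19, 20, 21, 22]) 38718982292) = true := by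
  decide +kernel

theorem tv19 : (Nat.beq (T1 [2, 3, 4, 5, 8, 9, 10, 11, 15, 16, 17, 18, 20, 21, 22, 23]) 33967546816 &&
    Nat.beq (T2 [2, 3, 4, 5, 8, 9, 10, 11, 15, 16, 17, 18, 20, 21, 22, 23]) 33969862664) = true := by
  decide +kernel

end Pool.Agent.H620R3.NR
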