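import Pool.Agent.H620R3.NR.Num

set_option autoImplicit false

namespace Pool.Agent.H620R3.NR

theorem tv30 : (Nat.beq (T1 [2, 3, 4, 5, 7, 8, 9, 10, 13, 14, 15, 16, 18, 19, 20, 21]) 34699411016 &&
    Nat.beq (T2 [2, 3, 4, 5, 7, 8, 9, 10, 13, 14, 15, 16, 18, 19, 20, 21]) 34700146648) = true := by
  decide +kernel

theorem tv31 : (Nat.beq (T1 [2, 3, 4, 5, 7, 8, 9, 10, 12, 13, 14, 15, 20, 21, 22, 23]) 39785258424 &&
    Nat.beq (T2 [2, 3, 4, 5, 7, 8, 9, 10, 12, 13, 14, 15, 20, 21, 22, 23]) 39784612974) = true := by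
  decide +kernel

theorem tv32 : (Nat.beq (T1 [2, 3, 4, 5, 7, 8, 9, 10, 12, 13, 14, 15, 19, 20, 21, 22]) 38719330312 &&
    Nat.beq (T2 [2, 3, 4, 5, 7, 8, 9, 10, 12, 13, 14, 15, 19, 20, 21, 22]) 38718982292) = true := by
  decide +kernel

theorem tv33 : (Nat.beq (T1 [2, 3, 4, 5, 7, 8, 9, 10, 12, 13, 14, 15, 18, 19, 20, 21]) 22711481576 &&
    Nat.beq (T2 [2, 3, 4, 5, 7, 8, 9, 10, 12, 13, 14, 15, 18, 19, 20, 21]) 22711132264) = true := by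
  decide +kernel

theorem tv34 : (Nat.beq (T1 [2, 3, 4, 5, 7, 8, 9, 10, 12, 13, 14, 15, 17, 18, 19, 20]) 9940600440 &&
    Nat.beq (T2 [2, 3, 4, 5, 7, 8, 9, 10, 12, 13, 14, 15, 17, 18, 19, 20]) 9940701564) = true := by
  decide +kernel

end Pool.Agent.H620R3.NR
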