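import Pool.Agent.H620R3.NR.Num

set_option autoImplicit false

namespace Pool.Agent.H620R3.NR

theorem tv35 : (Nat.beq (T1 [1, 2, 3, 4, 10, 11, 12, 13, 15, 16, 17, 18, 20, 21, 22, 23]) 9940600440 &&
    Nat.beq (T2 [1, 2, 3, 4, 10, 11, 12, 13, 15, 16, 17, 18, 20, 21, 22, 23]) 9940701564) = true := by
  decide +kernel

theorem tv36 : (Nat.beq (T1 [1, 2, 3, 4, 9, 10, 11, 12, 15, 16, 17, 18, 20, 21, 22, 23]) 22711481576 &&
    Nat.beq (T2 [1, 2, 3, 4, 9, 10, 11, 12, 15, 16, 17, 18, 20, 21, 22, 23]) 22711132264) = true := by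
  decide +kernel

theorem tv37 : (Nat.beq (T1 [1, 2, 3, 4, 9, 10, 11, 12, 14, 15, 16, 17, 20, 21, 22, 23]) 38719330312 &&
    Nat.beq (T2 [1, 2, 3, 4, 9, 10, 11, 12, 14, 15, 16, 17, 20, 21, 22, 23]) 38718982292) = true := by
  decide +kernel

theorem tv38 : (Nat.beq (T1 [1, 2, 3, 4, 9, 10, 11, 12, 14, 15, 16, 17, 19, 20, 21, 22]) 39785258424 &&
    Nat.beq (T2 [1, 2, 3, 4, 9, 10, 11, 12, 14, 15, 16, 17, 19, 20, 21, 22]) 39784612974) = true := by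
  decide +kernel

theorem tv39 : (Nat.beq (T1 [1, 2, 3, 4, 8, 9, 10, 11, 15, 16, 17, 18, 20, 21, 22, 23]) 34699411016 &&
    Nat.beq (T2 [1, 2, 3, 4, 8, 9, 10, 11, 15, 16, 17, 18, 20, 21, 22, 23]) 34700146648) = true := by
  decide +kernel

end Pool.Agent.H620R3.NR
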