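import Pool.Agent.H620R3.NR.Num

set_option autoImplicit false

namespace Pool.Agent.H620R3.NR

theorem tv45 : (Nat.beq (T1 [1, 2, 3, 4, 7, 8, 9, 10, 15, 16, 17, 18, 20, 21, 22, 23]) 35172396312 &&
    Nat.beq (T2 [1, 2, 3, 4, 7, 8, 9, 10, 15, 16, 17, 18, 20, 21, 22, 23]) 35171781540) = true := by
  decide +kernel

theorem tv46 : (Nat.beq (T1 [1, 2, 3, 4, 7, 8, 9, 10, 14, 15, 16, 17, 20, 21, 22, 23]) 58165871152 &&
    Nat.beq (T2 [1, 2, 3, 4, 7, 8, 9, 10, 14, 15, 16, 17, 20, 21, 22, 23]) 58164156376) = true := by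
  decide +kernel

theorem tv47 : (Nat.beq (T1 [1, 2, 3, 4, 7, 8, 9, 10, 14, 15, 16, 17, 19, 20, 21, 22]) 58439659648 &&
    Nat.beq (T2 [1, 2, 3, 4, 7, 8, 9, 10, 14, 15, 16, 17, 19, 20, 21, 22]) 58442490952) = true := by
  decide +kernel

theorem tv48 : (Nat.beq (T1 [1, 2, 3, 4, 7, 8, 9, 10, 13, 14, 15, 16, 20, 21, 22, 23]) 58062957728 &&
    Nat.beq (T2 [1, 2, 3, 4, 7, 8, 9, 10, 13, 14, 15, 16, 20, 21, 22, 23]) 58068392884) = true := by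
  decide +kernel

theorem tv49 : (Nat.beq (T1 [1, 2, 3, 4, 7, 8, 9, 10, 13, 14, 15, 16, 19, 20, 21, 22]) 57222149544 &&
    Nat.beq (T2 [1, 2, 3, 4, 7, 8, 9, 10, 13, 14, 15, 16, 19, 20, 21, 22]) 57207887548) = true := by
  decide +kernel

end Pool.Agent.H620R3.NR
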