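import Pool.Agent.H620R3.NR.Fin
import Pool.Agent.H620R3.NR.V00
import Pool.Agent.H620R3.NR.V01
import Pool.Agent.H620R3.NR.V02
import Pool.Agent.H620R3.NR.V03
import Pool.Agent.H620R3.NR.V04
import Pool.Agent.H620R3.NR.V05
import Pool.Agent.H620R3.NR.V06
import Pool.Agent.H620R3.NR.V07
import Pool.Agent.H620R3.NR.V08
import Pool.Agent.H620R3.NR.V09
import Pool.Agent.H620R3.NR.V10
import Pool.Agent.H620R3.NR.V11
import Pool.Agent.H620R3.NR.V12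
import Pool.Agent.H620R3.NR.V13

set_option autoImplicit false

namespace Pool.Agent.H620R3.NR

attribute [local irreducible] T1 T2

@[irreducible] def gT (L : List ℕ) : ℤ := (T1 L : ℤ) - (T2 L : ℤ)

theorem chk {L : List ℕ} {a b : ℕ} {c : ℤ}
    (h : (Nat.beq (T1 L) a && Nat.beq (T2 L) b) = true) (hc : (a : ℤ) - (b : ℤ) = c) :
    gT L = c := by
  unfold gT
  rw [Bool.and_eq_true, Nat.beq_eq, Nat.beq_eq] at h
  rw [h.1, h.2, hc]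

theorem g0 : gT [5, 6, 7, 8, 10, 11, 12, 13, 15, 16, 17, 18, 20, 21, 22, 23] = (146088 : ℤ) :=
  chk tv0 (by norm_num)
theorem g1 : gT [4, 5, 6, 7, 10, 11, 12, 13, 15, 16, 17, 18, 20, 21, 22, 23] = (-2464896 : ℤ) :=
  chk tv1 (by norm_num)
theorem g2 : gT [4, 5, 6, 7, 9, 10, 11, 12, 15, 16, 17, 18, 20, 21, 22, 23] = (1154472 : ℤ) :=
  chk tv2 (by norm_num)
theorem g3 : gT [4, 5, 6, 7, 9, 10, 11, 12, 14, 15, 16, 17, 20, 21, 22, 23] = (412484 : ℤ) :=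
  chk tv3 (by norm_num)
theorem g4 : gT [4, 5, 6, 7, 9, 10, 11, 12, 14, 15, 16, 17, 19, 20, 21, 22] = (-101124 : ℤ) :=
  chk tv4 (by norm_num)
theorem g5 : gT [3, 4, 5, 6, 10, 11, 12, 13, 15, 16, 17, 18, 20, 21, 22, 23] = (1154472 : ℤ) :=
  chk tv5 (by norm_num)
theorem g6 : gT [3, 4, 5, 6, 9, 10, 11, 12, 15, 16, 17, 18, 20, 21, 22, 23] = (-7754306 : ℤ) :=
  chk tv6 (by norm_num)
theorem g7 : gT [3, 4, 5, 6, 9, 10, 11, 12, 14, 15, 16, 17, 20, 21, 22, 23] = (2829796 : ℤ) :=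
  chk tv7 (by norm_num)
theorem g8 : gT [3, 4, 5, 6, 9, 10, 11, 12, 14, 15, 16, 17, 19, 20, 21, 22] = (349312 : ℤ) :=
  chk tv8 (by norm_num)
theorem g9 : gT [3, 4, 5, 6, 8, 9, 10, 11, 15, 16, 17, 18, 20, 21, 22, 23] = (1595724 : ℤ) :=
  chk tv9 (by norm_num)
theorem g10 : gT [3, 4, 5, 6, 8, 9, 10, 11, 14, 15, 16, 17, 20, 21, 22, 23] = (-2315848 : ℤ) :=
  chk tv10 (by norm_num)
theorem g11 : gT [3, 4, 5, 6, 8, 9, 10, 11, 14, 15, 16, 17, 19, 20, 21, 22] = (-735632 : ℤ) :=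
  chk tv11 (by norm_num)
theorem g12 : gT [3, 4, 5, 6, 8, 9, 10, 11, 13, 14, 15, 16, 20, 21, 22, 23] = (-1378604 : ℤ) :=
  chk tv12 (by norm_num)
theorem g13 : gT [3, 4, 5, 6, 8, 9, 10, 11, 13, 14, 15, 16, 19, 20, 21, 22] = (614772 : ℤ) :=
  chk tv13 (by norm_num)
theorem g14 : gT [3, 4, 5, 6, 8, 9, 10, 11, 13, 14, 15, 16, 18, 19, 20, 21] = (667256 : ℤ) :=
  chk tv14 (by norm_num)
theorem g15 : gT [2, 3, 4, 5, 10, 11, 12, 13, 15, 16, 17, 18, 20, 21, 22, 23] = (412484 : ℤ) :=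
  chk tv15 (by norm_num)
theorem g16 : gT [2, 3, 4, 5, 9, 10, 11, 12, 15, 16, 17, 18, 20, 21, 22, 23] = (2829796 : ℤ) :=
  chk tv16 (by norm_num)
theorem g17 : gT [2, 3, 4, 5, 9, 10, 11, 12, 14, 15, 16, 17, 20, 21, 22, 23] = (-5638036 : ℤ) :=
  chk tv17 (by norm_num)
theorem g18 : gT [2, 3, 4, 5, 9, 10, 11, 12, 14, 15, 16, 17, 19, 20, 21, 22] = (348020 : ℤ) :=
  chk tv18 (by norm_num)
theorem g19 : gT [2, 3, 4, 5, 8, 9, 10, 11, 15, 16, 17, 18, 20, 21, 22, 23] = (-2315848 : ℤ) :=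
  chk tv19 (by norm_num)
theorem g20 : gT [2, 3, 4, 5, 8, 9, 10, 11, 14, 15, 16, 17, 20, 21, 22, 23] = (14261996 : ℤ) :=
  chk tv20 (by norm_num)
theorem g21 : gT [2, 3, 4, 5, 8, 9, 10, 11, 14, 15, 16, 17, 19, 20, 21, 22] = (-5435156 : ℤ) :=
  chk tv21 (by norm_num)
theorem g22 : gT [2, 3, 4, 5, 8, 9, 10, 11, 13, 14, 15, 16, 20, 21, 22, 23] = (-2831304 : ℤ) :=
  chk tv22 (by norm_num)
theorem g23 : gT [2, 3, 4, 5, 8, 9, 10, 11, 13, 14, 15, 16, 19, 20, 21, 22] = (1714776 : ℤ) :=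
  chk tv23 (by norm_num)
theorem g24 : gT [2, 3, 4, 5, 8, 9, 10, 11, 13, 14, 15, 16, 18, 19, 20, 21] = (614772 : ℤ) :=
  chk tv24 (by norm_num)
theorem g25 : gT [2, 3, 4, 5, 7, 8, 9, 10, 15, 16, 17, 18, 20, 21, 22, 23] = (-1378604 : ℤ) :=
  chk tv25 (by norm_num)
theorem g26 : gT [2, 3, 4, 5, 7, 8, 9, 10, 14, 15, 16, 17, 20, 21, 22, 23] = (-2831304 : ℤ) :=
  chk tv26 (by norm_num)
theorem g27 : gT [2, 3, 4, 5, 7, 8, 9, 10, 14, 15, 16, 17, 19, 20, 21, 22] = (4964584 : ℤ) :=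
  chk tv27 (by norm_num)
theorem g28 : gT [2, 3, 4, 5, 7, 8, 9, 10, 13, 14, 15, 16, 20, 21, 22, 23] = (4418900 : ℤ) :=
  chk tv28 (by norm_num)
theorem g29 : gT [2, 3, 4, 5, 7, 8, 9, 10, 13, 14, 15, 16, 19, 20, 21, 22] = (-5435156 : ℤ) :=
  chk tv29 (by norm_num)
theorem g30 : gT [2, 3, 4, 5, 7, 8, 9, 10, 13, 14, 15, 16, 18, 19, 20, 21] = (-735632 : ℤ) :=
  chk tv30 (by norm_num)
theorem g31 : gT [2, 3, 4, 5, 7, 8, 9, 10, 12, 13, 14, 15, 20, 21, 22, 23] = (645450 : ℤ) :=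
  chk tv31 (by norm_num)
theorem g32 : gT [2, 3, 4, 5, 7, 8, 9, 10, 12, 13, 14, 15, 19, 20, 21, 22] = (348020 : ℤ) :=
  chk tv32 (by norm_num)
theorem g33 : gT [2, 3, 4, 5, 7, 8, 9, 10, 12, 13, 14, 15, 18, 19, 20, 21] = (349312 : ℤ) :=
  chk tv33 (by norm_num)
theorem g34 : gT [2, 3, 4, 5, 7, 8, 9, 10, 12, 13, 14, 15, 17, 18, 19, 20] = (-101124 : ℤ) :=
  chk tv34 (by norm_num)
theorem g35 : gT [1, 2, 3, 4, 10, 11, 12, 13, 15, 16, 17, 18, 20, 21, 22, 23] = (-101124 : ℤ) :=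
  chk tv35 (by norm_num)
theorem g36 : gT [1, 2, 3, 4, 9, 10, 11, 12, 15, 16, 17, 18, 20, 21, 22, 23] = (349312 : ℤ) :=
  chk tv36 (by norm_num)
theorem g37 : gT [1, 2, 3, 4, 9, 10, 11, 12, 14, 15, 16, 17, 20, 21, 22, 23] = (348020 : ℤ) :=
  chk tv37 (by norm_num)
theorem g38 : gT [1, 2, 3, 4, 9, 10, 11, 12, 14, 15, 16, 17, 19, 20, 21, 22] = (645450 : ℤ) :=
  chk tv38 (by norm_num)
theorem g39 : gT [1, 2, 3, 4, 8, 9, 10, 11, 15, 16, 17, 18, 20, 21, 22, 23] = (-735632 : ℤ) :=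
  chk tv39 (by norm_num)
theorem g40 : gT [1, 2, 3, 4, 8, 9, 10, 11, 14, 15, 16, 17, 20, 21, 22, 23] = (-5435156 : ℤ) :=
  chk tv40 (by norm_num)
theorem g41 : gT [1, 2, 3, 4, 8, 9, 10, 11, 14, 15, 16, 17, 19, 20, 21, 22] = (4418900 : ℤ) :=
  chk tv41 (by norm_num)
theorem g42 : gT [1, 2, 3, 4, 8, 9, 10, 11, 13, 14, 15, 16, 20, 21, 22, 23] = (4964584 : ℤ) :=
  chk tv42 (by norm_num)
theorem g43 : gT [1, 2, 3, 4, 8, 9, 10, 11, 13, 14, 15, 16, 19, 20, 21, 22] = (-2831304 : ℤ) :=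
  chk tv43 (by norm_num)
theorem g44 : gT [1, 2, 3, 4, 8, 9, 10, 11, 13, 14, 15, 16, 18, 19, 20, 21] = (-1378604 : ℤ) :=
  chk tv44 (by norm_num)
theorem g45 : gT [1, 2, 3, 4, 7, 8, 9, 10, 15, 16, 17, 18, 20, 21, 22, 23] = (614772 : ℤ) :=
  chk tv45 (by norm_num)
theorem g46 : gT [1, 2, 3, 4, 7, 8, 9, 10, 14, 15, 16, 17, 20, 21, 22, 23] = (1714776 : ℤ) :=
  chk tv46 (by norm_num)
theorem g47 : gT [1, 2, 3, 4, 7, 8, 9, 10, 14, 15, 16, 17, 19, 20, 21, 22] = (-2831304 : ℤ) :=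
  chk tv47 (by norm_num)
theorem g48 : gT [1, 2, 3, 4, 7, 8, 9, 10, 13, 14, 15, 16, 20, 21, 22, 23] = (-5435156 : ℤ) :=
  chk tv48 (by norm_num)
theorem g49 : gT [1, 2, 3, 4, 7, 8, 9, 10, 13, 14, 15, 16, 19, 20, 21, 22] = (14261996 : ℤ) :=
  chk tv49 (by norm_num)
theorem g50 : gT [1, 2, 3, 4, 7, 8, 9, 10, 13, 14, 15, 16, 18, 19, 20, 21] = (-2315848 : ℤ) :=
  chk tv50 (by norm_num)
theorem g51 : gT [1, 2, 3, 4, 7, 8, 9, 10, 12, 13, 14, 15, 20, 21, 22, 23] = (348020 : ℤ) :=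
  chk tv51 (by norm_num)
theorem g52 : gT [1, 2, 3, 4, 7, 8, 9, 10, 12, 13, 14, 15, 19, 20, 21, 22] = (-5638036 : ℤ) :=
  chk tv52 (by norm_num)
theorem g53 : gT [1, 2, 3, 4, 7, 8, 9, 10, 12, 13, 14, 15, 18, 19, 20, 21] = (2829796 : ℤ) :=
  chk tv53 (by norm_num)
theorem g54 : gT [1, 2, 3, 4, 7, 8, 9, 10, 12, 13, 14, 15, 17, 18, 19, 20] = (412484 : ℤ) :=
  chk tv54 (by norm_num)
theorem g55 : gT [1, 2, 3, 4, 6, 7, 8, 9, 15, 16, 17, 18, 20, 21, 22, 23] = (667256 : ℤ) :=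
  chk tv55 (by norm_num)
theorem g56 : gT [1, 2, 3, 4, 6, 7, 8, 9, 14, 15, 16, 17, 20, 21, 22, 23] = (614772 : ℤ) :=
  chk tv56 (by norm_num)
theorem g57 : gT [1, 2, 3, 4, 6, 7, 8, 9, 14, 15, 16, 17, 19, 20, 21, 22] = (-1378604 : ℤ) :=
  chk tv57 (by norm_num)
theorem g58 : gT [1, 2, 3, 4, 6, 7, 8, 9, 13, 14, 15, 16, 20, 21, 22, 23] = (-735632 : ℤ) :=
  chk tv58 (by norm_num)
theorem g59 : gT [1, 2, 3, 4, 6, 7, 8, 9, 13, 14, 15, 16, 19, 20, 21, 22] = (-2315848 : ℤ) :=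
  chk tv59 (by norm_num)
theorem g60 : gT [1, 2, 3, 4, 6, 7, 8, 9, 13, 14, 15, 16, 18, 19, 20, 21] = (1595724 : ℤ) :=
  chk tv60 (by norm_num)
theorem g61 : gT [1, 2, 3, 4, 6, 7, 8, 9, 12, 13, 14, 15, 20, 21, 22, 23] = (349312 : ℤ) :=
  chk tv61 (by norm_num)
theorem g62 : gT [1, 2, 3, 4, 6, 7, 8, 9, 12, 13, 14, 15, 19, 20, 21, 22] = (2829796 : ℤ) :=
  chk tv62 (by norm_num)
theorem g63 : gT [1, 2, 3, 4, 6, 7, 8, 9, 12, 13, 14, 15, 18, 19, 20, 21] = (-7754306 : ℤ) :=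
  chk tv63 (by norm_num)
theorem g64 : gT [1, 2, 3, 4, 6, 7, 8, 9, 12, 13, 14, 15, 17, 18, 19, 20] = (1154472 : ℤ) :=
  chk tv64 (by norm_num)
theorem g65 : gT [1, 2, 3, 4, 6, 7, 8, 9, 11, 12, 13, 14, 20, 21, 22, 23] = (-101124 : ℤ) :=
  chk tv65 (by norm_num)
theorem g66 : gT [1, 2, 3, 4, 6, 7, 8, 9, 11, 12, 13, 14, 19, 20, 21, 22] = (412484 : ℤ) :=
  chk tv66 (by norm_num)
theorem g67 : gT [1, 2, 3, 4, 6, 7, 8, 9, 11, 12, 13, 14, 18, 19, 20, 21] = (1154472 : ℤ) :=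
  chk tv67 (by norm_num)
theorem g68 : gT [1, 2, 3, 4, 6, 7, 8, 9, 11, 12, 13, 14, 17, 18, 19, 20] = (-2464896 : ℤ) :=
  chk tv68 (by norm_num)
theorem g69 : gT [1, 2, 3, 4, 6, 7, 8, 9, 11, 12, 13, 14, 16, 17, 18, 19] = (146088 : ℤ) :=
  chk tv69 (by norm_num)

def VV : List (List ℕ × ℤ) := [
    ([5, 6, 7, 8, 10, 11, 12, 13, 15, 16, 17, 18, 20, 21, 22, 23], 146088),
    ([4, 5, 6, 7, 10, 11, 12, 13, 15, 16, 17, 18, 20, 21, 22, 23], -2464896),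
    ([4, 5, 6, 7, 9, 10, 11, 12, 15, 16, 17, 18, 20, 21, 22, 23], 1154472),
    ([4, 5, 6, 7, 9, 10, 11, 12, 14, 15, 16, 17, 20, 21, 22, 23], 412484),
    ([4, 5, 6, 7, 9, 10, 11, 12, 14, 15, 16, 17, 19, 20, 21, 22], -101124),
    ([3, 4, 5, 6, 10, 11, 12, 13, 15, 16, 17, 18, 20, 21, 22, 23], 1154472),
    ([3, 4, 5, 6, 9, 10, 11, 12, 15, 16, 17, 18, 20, 21, 22, 23], -7754306),
    ([3, 4, 5, 6, 9, 10, 11, 12, 14, 15, 16, 17, 20, 21, 22, 23], 2829796),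
    ([3, 4, 5, 6, 9, 10, 11, 12, 14, 15, 16, 17, 19, 20, 21, 22], 349312),
    ([3, 4, 5, 6, 8, 9, 10, 11, 15, 16, 17, 18, 20, 21, 22, 23], 1595724),
    ([3, 4, 5, 6, 8, 9, 10, 11, 14, 15, 16, 17, 20, 21, 22, 23], -2315848),
    ([3, 4, 5, 6, 8, 9, 10, 11, 14, 15, 16, 17, 19, 20, 21, 22], -735632),
    ([3, 4, 5, 6, 8, 9, 10, 11, 13, 14, 15, 16, 20, 21, 22, 23], -1378604),
    ([3, 4, 5, 6, 8, 9, 10, 11, 13, 14, 15, 16, 19, 20, 21, 22], 614772),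
    ([3, 4, 5, 6, 8, 9, 10, 11, 13, 14, 15, 16, 18, 19, 20, 21], 667256),
    ([2, 3, 4, 5, 10, 11, 12, 13, 15, 16, 17, 18, 20, 21, 22, 23], 412484),
    ([2, 3, 4, 5, 9, 10, 11, 12, 15, 16, 17, 18, 20, 21, 22, 23], 2829796),
    ([2, 3, 4, 5, 9, 10, 11, 12, 14, 15, 16, 17, 20, 21, 22, 23], -5638036),
    ([2, 3, 4, 5, 9, 10, 11, 12, 14, 15, 16, 17, 19, 20, 21, 22], 348020),
    ([2, 3, 4, 5, 8, 9, 10, 11, 15, 16, 17, 18, 20, 21, 22, 23], -2315848),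
    ([2, 3, 4, 5, 8, 9, 10, 11, 14, 15, 16, 17, 20, 21, 22, 23], 14261996),
    ([2, 3, 4, 5, 8, 9, 10, 11, 14, 15, 16, 17, 19, 20, 21, 22], -5435156),
    ([2, 3, 4, 5, 8, 9, 10, 11, 13, 14, 15, 16, 20, 21, 22, 23], -2831304),
    ([2, 3, 4, 5, 8, 9, 10, 11, 13, 14, 15, 16, 19, 20, 21, 22], 1714776),
    ([2, 3, 4, 5, 8, 9, 10, 11, 13, 14, 15, 16, 18, 19, 20, 21], 614772),
    ([2, 3, 4, 5, 7, 8, 9, 10, 15, 16, 17, 18, 20, 21, 22, 23], -1378604),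
    ([2, 3, 4, 5, 7, 8, 9, 10, 14, 15, 16, 17, 20, 21, 22, 23], -2831304),
    ([2, 3, 4, 5, 7, 8, 9, 10, 14, 15, 16, 17, 19, 20, 21, 22], 4964584),
    ([2, 3, 4, 5, 7, 8, 9, 10, 13, 14, 15, 16, 20, 21, 22, 23], 4418900),
    ([2, 3, 4, 5, 7, 8, 9, 10, 13, 14, 15, 16, 19, 20, 21, 22], -5435156),
    ([2, 3, 4, 5, 7, 8, 9, 10, 13, 14, 15, 16, 18, 19, 20, 21], -735632),
    ([2, 3, 4, 5, 7, 8, 9, 10, 12, 13, 14, 15, 20, 21, 22, 23], 645450),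
    ([2, 3, 4, 5, 7, 8, 9, 10, 12, 13, 14, 15, 19, 20, 21, 22], 348020),
    ([2, 3, 4, 5, 7, 8, 9, 10, 12, 13, 14, 15, 18, 19, 20, 21], 349312),
    ([2, 3, 4, 5, 7, 8, 9, 10, 12, 13, 14, 15, 17, 18, 19, 20], -101124),
    ([1, 2, 3, 4, 10, 11, 12, 13, 15, 16, 17, 18, 20, 21, 22, 23], -101124),
    ([1, 2, 3, 4, 9, 10, 11, 12, 15, 16, 17, 18, 20, 21, 22, 23], 349312),
    ([1, 2, 3, 4, 9, 10, 11, 12, 14, 15, 16, 17, 20, 21, 22, 23], 348020),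
    ([1, 2, 3, 4, 9, 10, 11, 12, 14, 15, 16, 17, 19, 20, 21, 22], 645450),
    ([1, 2, 3, 4, 8, 9, 10, 11, 15, 16, 17, 18, 20, 21, 22, 23], -735632),
    ([1, 2, 3, 4, 8, 9, 10, 11, 14, 15, 16, 17, 20, 21, 22, 23], -5435156),
    ([1, 2, 3, 4, 8, 9, 10, 11, 14, 15, 16, 17, 19, 20, 21, 22], 4418900),
    ([1, 2, 3, 4, 8, 9, 10, 11, 13, 14, 15, 16, 20, 21, 22, 23], 4964584),
    ([1, 2, 3, 4, 8, 9, 10, 11, 13, 14, 15, 16, 19, 20, 21, 22], -2831304),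
    ([1, 2, 3, 4, 8, 9, 10, 11, 13, 14, 15, 16, 18, 19, 20, 21], -1378604),
    ([1, 2, 3, 4, 7, 8, 9, 10, 15, 16, 17, 18, 20, 21, 22, 23], 614772),
    ([1, 2, 3, 4, 7, 8, 9, 10, 14, 15, 16, 17, 20, 21, 22, 23], 1714776),
    ([1, 2, 3, 4, 7, 8, 9, 10, 14, 15, 16, 17, 19, 20, 21, 22], -2831304),
    ([1, 2, 3, 4, 7, 8, 9, 10, 13, 14, 15, 16, 20, 21, 22, 23], -5435156),
    ([1, 2, 3, 4, 7, 8, 9, 10, 13, 14, 15, 16, 19, 20, 21, 22], 14261996),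
    ([1, 2, 3, 4, 7, 8, 9, 10, 13, 14, 15, 16, 18, 19, 20, 21], -2315848),
    ([1, 2, 3, 4, 7, 8, 9, 10, 12, 13, 14, 15, 20, 21, 22, 23], 348020),
    ([1, 2, 3, 4, 7, 8, 9, 10, 12, 13, 14, 15, 19, 20, 21, 22], -5638036),
    ([1, 2, 3, 4, 7, 8, 9, 10, 12, 13, 14, 15, 18, 19, 20, 21], 2829796),
    ([1, 2, 3, 4, 7, 8, 9, 10, 12, 13, 14, 15, 17, 18, 19, 20], 412484),
    ([1, 2, 3, 4, 6, 7, 8, 9, 15, 16, 17, 18, 20, 21, 22, 23], 667256),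
    ([1, 2, 3, 4, 6, 7, 8, 9, 14, 15, 16, 17, 20, 21, 22, 23], 614772),
    ([1, 2, 3, 4, 6, 7, 8, 9, 14, 15, 16, 17, 19, 20, 21, 22], -1378604),
    ([1, 2, 3, 4, 6, 7, 8, 9, 13, 14, 15, 16, 20, 21, 22, 23], -735632),
    ([1, 2, 3, 4, 6, 7, 8, 9, 13, 14, 15, 16, 19, 20, 21, 22], -2315848),
    ([1, 2, 3, 4, 6, 7, 8, 9, 13, 14, 15, 16, 18, 19, 20, 21], 1595724),
    ([1, 2, 3, 4, 6, 7, 8, 9, 12, 13, 14, 15, 20, 21, 22, 23], 349312),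
    ([1, 2, 3, 4, 6, 7, 8, 9, 12, 13, 14, 15, 19, 20, 21, 22], 2829796),
    ([1, 2, 3, 4, 6, 7, 8, 9, 12, 13, 14, 15, 18, 19, 20, 21], -7754306),
    ([1, 2, 3, 4, 6, 7, 8, 9, 12, 13, 14, 15, 17, 18, 19, 20], 1154472),
    ([1, 2, 3, 4, 6, 7, 8, 9, 11, 12, 13, 14, 20, 21, 22, 23], -101124),
    ([1, 2, 3, 4, 6, 7, 8, 9, 11, 12, 13, 14, 19, 20, 21, 22], 412484),
    ([1, 2, 3, 4, 6, 7, 8, 9, 11, 12, 13, 14, 18, 19, 20, 21], 1154472),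
    ([1, 2, 3, 4, 6, 7, 8, 9, 11, 12, 13, 14, 17, 18, 19, 20], -2464896),
    ([1, 2, 3, 4, 6, 7, 8, 9, 11, 12, 13, 14, 16, 17, 18, 19], 146088)]

theorem LL_VV : LL = VV.map Prod.fst := by
  decide +kernel

theorem VV_sum : (VV.map Prod.snd).sum = -3240176 := by
  decide +kernel

theorem VV_all : ∀ p ∈ VV, gT p.1 = p.2 := by
  unfold VV
  refine List.forall_mem_cons.2 ⟨g0, ?_⟩
  refine List.forall_mem_cons.2 ⟨g1, ?_⟩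
  refine List.forall_mem_cons.2 ⟨g2, ?_⟩
  refine List.forall_mem_cons.2 ⟨g3, ?_⟩
  refine List.forall_mem_cons.2 ⟨g4, ?_⟩
  refine List.forall_mem_cons.2 ⟨g5, ?_⟩
  refine List.forall_mem_cons.2 ⟨g6, ?_⟩
  refine List.forall_mem_cons.2 ⟨g7, ?_⟩
  refine List.forall_mem_cons.2 ⟨g8, ?_⟩
  refine List.forall_mem_cons.2 ⟨g9, ?_⟩
  refine List.forall_mem_cons.2 ⟨g10, ?_⟩
  refine List.forall_mem_cons.2 ⟨g11, ?_⟩
  refine List.forall_mem_cons.2 ⟨g12, ?_⟩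
  refine List.forall_mem_cons.2 ⟨g13, ?_⟩
  refine List.forall_mem_cons.2 ⟨g14, ?_⟩
  refine List.forall_mem_cons.2 ⟨g15, ?_⟩
  refine List.forall_mem_cons.2 ⟨g16, ?_⟩
  refine List.forall_mem_cons.2 ⟨g17, ?_⟩
  refine List.forall_mem_cons.2 ⟨g18, ?_⟩
  refine List.forall_mem_cons.2 ⟨g19, ?_⟩
  refine List.forall_mem_cons.2 ⟨g20, ?_⟩
  refine List.forall_mem_cons.2 ⟨g21, ?_⟩
  refine List.forall_mem_cons.2 ⟨g22, ?_⟩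
  refine List.forall_mem_cons.2 ⟨g23, ?_⟩
  refine List.forall_mem_cons.2 ⟨g24, ?_⟩
  refine List.forall_mem_cons.2 ⟨g25, ?_⟩
  refine List.forall_mem_cons.2 ⟨g26, ?_⟩
  refine List.forall_mem_cons.2 ⟨g27, ?_⟩
  refine List.forall_mem_cons.2 ⟨g28, ?_⟩
  refine List.forall_mem_cons.2 ⟨g29, ?_⟩
  refine List.forall_mem_cons.2 ⟨g30, ?_⟩
  refine List.forall_mem_cons.2 ⟨g31, ?_⟩
  refine List.forall_mem_cons.2 ⟨g32, ?_⟩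
  refine List.forall_mem_cons.2 ⟨g33, ?_⟩
  refine List.forall_mem_cons.2 ⟨g34, ?_⟩
  refine List.forall_mem_cons.2 ⟨g35, ?_⟩
  refine List.forall_mem_cons.2 ⟨g36, ?_⟩
  refine List.forall_mem_cons.2 ⟨g37, ?_⟩
  refine List.forall_mem_cons.2 ⟨g38, ?_⟩
  refine List.forall_mem_cons.2 ⟨g39, ?_⟩
  refine List.forall_mem_cons.2 ⟨g40, ?_⟩
  refine List.forall_mem_cons.2 ⟨g41, ?_⟩
  refine List.forall_mem_cons.2 ⟨g42, ?_⟩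
  refine List.forall_mem_cons.2 ⟨g43, ?_⟩
  refine List.forall_mem_cons.2 ⟨g44, ?_⟩
  refine List.forall_mem_cons.2 ⟨g45, ?_⟩
  refine List.forall_mem_cons.2 ⟨g46, ?_⟩
  refine List.forall_mem_cons.2 ⟨g47, ?_⟩
  refine List.forall_mem_cons.2 ⟨g48, ?_⟩
  refine List.forall_mem_cons.2 ⟨g49, ?_⟩
  refine List.forall_mem_cons.2 ⟨g50, ?_⟩
  refine List.forall_mem_cons.2 ⟨g51, ?_⟩
  refine List.forall_mem_cons.2 ⟨g52, ?_⟩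
  refine List.forall_mem_cons.2 ⟨g53, ?_⟩
  refine List.forall_mem_cons.2 ⟨g54, ?_⟩
  refine List.forall_mem_cons.2 ⟨g55, ?_⟩
  refine List.forall_mem_cons.2 ⟨g56, ?_⟩
  refine List.forall_mem_cons.2 ⟨g57, ?_⟩
  refine List.forall_mem_cons.2 ⟨g58, ?_⟩
  refine List.forall_mem_cons.2 ⟨g59, ?_⟩
  refine List.forall_mem_cons.2 ⟨g60, ?_⟩
  refine List.forall_mem_cons.2 ⟨g61, ?_⟩
  refine List.forall_mem_cons.2 ⟨g62, ?_⟩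
  refine List.forall_mem_cons.2 ⟨g63, ?_⟩
  refine List.forall_mem_cons.2 ⟨g64, ?_⟩
  refine List.forall_mem_cons.2 ⟨g65, ?_⟩
  refine List.forall_mem_cons.2 ⟨g66, ?_⟩
  refine List.forall_mem_cons.2 ⟨g67, ?_⟩
  refine List.forall_mem_cons.2 ⟨g68, ?_⟩
  refine List.forall_mem_cons.2 ⟨g69, ?_⟩
  intro p hp
  exact absurd hp (List.not_mem_nil)

theorem gT_eq (L : List ℕ) : gT L = (T1 L : ℤ) - (T2 L : ℤ) := by
  unfold gT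
  exact Eq.refl _

theorem map_fst_snd (g : List ℕ → ℤ) (V : List (List ℕ × ℤ)) (h : ∀ p ∈ V, g p.1 = p.2) :
    (V.map Prod.fst).map g = V.map Prod.snd := by
  rw [List.map_map]
  exact List.map_congr_left fun p hp => h p hp

theorem sum_gT : (LL.map gT).sum = -3240176 :=
  (congrArg (fun l : List (List ℕ) => (l.map gT).sum) LL_VV).trans
    ((congrArg List.sum (map_fst_snd gT VV VV_all)).trans VV_sum)

theorem total : (LL.map (fun L => (T1 L : ℤ) - (T2 L : ℤ))).sum = -3240176 :=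
  (congrArg List.sum (List.map_congr_left (l := LL) (fun L _ => (gT_eq L).symm))).trans sum_gT

end Pool.Agent.H620R3.NR
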