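import Pool.Agent.H620R3.NR.Num

set_option autoImplicit false

namespace Pool.Agent.H620R3.NR

theorem tv60 : (Nat.beq (T1 [1, 2, 3, 4, 6, 7, 8, 9, 13, 14, 15, 16, 18, 19, 20, 21]) 19939006784 &&
    Nat.beq (T2 [1, 2, 3, 4, 6, 7, 8, 9, 13, 14, 15, 16, 18, 19, 20, 21]) 19937411060) = true := by
  decide +kernel

theorem tv61 : (Nat.beq (T1 [1, 2, 3, 4, 6, 7, 8, 9, 12, 13, 14, 15, 20, 21, 22, 23]) 22711481576 &&
    Nat.beq (T2 [1, 2, 3, 4, 6, 7, 8, 9, 12, 13, 14, 15, 20, 21, 22, 23]) 22711132264) = true := by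
  decide +kernel

theorem tv62 : (Nat.beq (T1 [1, 2, 3, 4, 6, 7, 8, 9, 12, 13, 14, 15, 19, 20, 21, 22]) 21910412648 &&
    Nat.beq (T2 [1, 2, 3, 4, 6, 7, 8, 9, 12, 13, 14, 15, 19, 20, 21, 22]) 21907582852) = true := by
  decide +kernel

theorem tv63 : (Nat.beq (T1 [1, 2, 3, 4, 6, 7, 8, 9, 12, 13, 14, 15, 18, 19, 20, 21]) 12603391744 &&
    Nat.beq (T2 [1, 2, 3, 4, 6, 7, 8, 9, 12, 13, 14, 15, 18, 19, 20, 21]) 12611146050) = true := by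
  decide +kernel

theorem tv64 : (Nat.beq (T1 [1, 2, 3, 4, 6, 7, 8, 9, 12, 13, 14, 15, 17, 18, 19, 20]) 5320466936 &&
    Nat.beq (T2 [1, 2, 3, 4, 6, 7, 8, 9, 12, 13, 14, 15, 17, 18, 19, 20]) 5319312464) = true := by
  decide +kernel

end Pool.Agent.H620R3.NR
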